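import Pool.Agent.Q21.FM.Tate2

/-!
Tate's theorem: `ℂ_p` has no nonzero vectors on which Galois acts by a character of infinite order
of the cyclotomic quotient.
-/

set_option autoImplicit false
set_option linter.unusedSectionVars false

namespace Pool.Agent.Q21.FM

open Pool.Agent.W292.FM Polynomial Finset

variable {p : ℕ} [hp : Fact p.Prime]

theorem norm_coe_sub (x y : PadicAlgCl p) : ‖(x : ℂ_[p]) - (y : ℂ_[p])‖ = ‖x - y‖ := by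
  rw [← UniformSpace.Completion.coe_sub, PadicComplex.norm_extends]

theorem norm_algMap (x : ℚ_[p]) : ‖algebraMap ℚ_[p] ℂ_[p] x‖ = ‖x‖ :=
  PadicComplex.norm_extends' p x

theorem approx {c : ℂ_[p]} (h : ∀ γ : GQp p, (∀ m, Fixes m γ) → cpMap p γ c = c) {δ : ℝ}
    (hδ : 0 < δ) : ∃ y ∈ Kinf p, ‖c - (y : ℂ_[p])‖ ≤ δ := by
  have hp0 : (0 : ℝ) < p := by exact_mod_cast hp.out.pos
  have hp1 : (1 : ℝ) ≤ p := by exact_mod_cast hp.out.one_le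
  have hδ' : 0 < δ / (p : ℝ) ^ 2 := by positivity
  obtain ⟨w, hw⟩ : ∃ w : PadicAlgCl p, ‖c - (w : ℂ_[p])‖ ≤ δ / (p : ℝ) ^ 2 := by
    have hd : DenseRange ((↑) : PadicAlgCl p → ℂ_[p]) := UniformSpace.Completion.denseRange_coe
    obtain ⟨w, hw⟩ := Metric.denseRange_iff.1 hd c _ hδ'
    exact ⟨w, by rw [← dist_eq_norm]; exact hw.le⟩
  obtain ⟨a, ha, haw⟩ := ax p (Kinf p) w (δ / (p : ℝ) ^ 2) hδ'.le (by
    intro σ hσ
    have hfix : ∀ m, Fixes m σ := by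
      intro m v hv
      apply hσ
      rw [mem_Kinf]
      obtain ⟨i, rfl⟩ := exists_pow_zt hv
      exact ⟨m, pow_mem (IntermediateField.mem_adjoin_simple_self _ _) i⟩
    have h1 := h σ hfix
    rw [← norm_coe_sub]
    have e : ((σ w : PadicAlgCl p) : ℂ_[p]) - (w : ℂ_[p]) =
        -(cpMap p σ (c - (w : ℂ_[p]))) + (c - (w : ℂ_[p])) := by
      rw [map_sub, h1, cpMap_coe]
      ring
    rw [e]
    refine (IsUltrametricDist.norm_add_le_max _ _).trans (max_le ?_ hw)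
    rw [norm_neg, norm_cpMap]
    exact hw)
  refine ⟨a, ha, ?_⟩
  have e : c - (a : ℂ_[p]) = (c - (w : ℂ_[p])) + ((w : ℂ_[p]) - (a : ℂ_[p])) := by ring
  rw [e]
  refine (IsUltrametricDist.norm_add_le_max _ _).trans (max_le ?_ ?_)
  · refine hw.trans ?_
    exact div_le_self hδ.le (one_le_pow₀ hp1)
  · rw [norm_coe_sub]
    refine haw.trans ?_
    rw [mul_div_cancel₀]
    positivity

/-- **Tate**: no vectors in `ℂ_p` for a character of infinite order of the cyclotomic quotient. -/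
theorem tate_vanish (c : ℂ_[p]) (M : ℕ) (ψ : GQp p → ℚ_[p])
    (hc : ∀ γ, Fixes M γ → cpMap p γ c = algebraMap ℚ_[p] ℂ_[p] (ψ γ) * c)
    (h1 : ∀ γ, (∀ m, Fixes m γ) → ψ γ = 1)
    (h2 : ∀ m, ∃ γ, Fixes m γ ∧ ψ γ ≠ 1) : c = 0 := by
  by_contra hc0
  have hcpos : 0 < ‖c‖ := norm_pos_iff.2 hc0
  have hp0 : (0 : ℝ) < p := by exact_mod_cast hp.out.pos
  have hp1 : (1 : ℝ) < p := by exact_mod_cast hp.out.one_lt
  have happ : ∀ δ : ℝ, 0 < δ → ∃ y ∈ Kinf p, ‖c - (y : ℂ_[p])‖ ≤ δ := by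
    intro δ hδ
    refine approx (fun γ hγ => ?_) hδ
    rw [hc γ (hγ M), h1 γ hγ, map_one, one_mul]
  have hmonoF : ∀ {a b : ℕ} {γ : GQp p}, a ≤ b → Fixes b γ → Fixes a γ := by
    intro a b γ hab hb w hw
    apply hb
    rw [show b = a + (b - a) by omega, pow_add, pow_mul, hw, one_pow]
  obtain ⟨y₀, hy₀, hy₀c⟩ := happ (‖c‖ / (p : ℝ) ^ 2) (by positivity)
  obtain ⟨m₀, hm₀⟩ := mem_Kinf.1 hy₀
  set n := max M m₀ with hn
  have hy₀n : y₀ ∈ Km p (n + 1) := Km_mono ((le_max_right M m₀).trans (Nat.le_succ _)) hm₀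
  obtain ⟨γ, hγ, hψ⟩ := h2 (n + 1)
  have hγM : Fixes M γ := hmonoF ((le_max_left M m₀).trans (Nat.le_succ _)) hγ
  have hψn : ‖ψ γ‖ = 1 := by
    have h3 := congrArg norm (hc γ hγM)
    rw [norm_cpMap, norm_mul, norm_algMap] at h3
    have h4 : 1 * ‖c‖ = ‖ψ γ‖ * ‖c‖ := by rw [one_mul]; exact h3
    exact (mul_right_cancel₀ hcpos.ne' h4).symm
  have hd : 0 < ‖1 - ψ γ‖ := norm_pos_iff.2 (sub_ne_zero.2 (Ne.symm hψ))
  set δ : ℝ := min (‖c‖ / (p : ℝ) ^ 2) (‖1 - ψ γ‖ * ‖c‖ / (2 * p)) with hδdef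
  have hδ : 0 < δ := lt_min (by positivity) (by positivity)
  obtain ⟨y, hy, hyc⟩ := happ δ hδ
  obtain ⟨k, hk⟩ := mem_Kinf.1 hy
  have hyk : y ∈ Km p (n + k + 1) := Km_mono (by omega) hk
  have hy₀k : y₀ ∈ Km p (n + k + 1) := Km_mono (by omega) hy₀n
  obtain ⟨τ, hτ⟩ := exists_tau (p := p) n k
  have hpk : (0 : ℝ) < ((p : ℝ) ^ k)⁻¹ := by positivity
  -- the element `γ y - ψ y`
  have hz : ‖γ y - ψ γ • y‖ ≤ δ := by
    rw [← norm_coe_sub]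
    have e0 : ((ψ γ • y : PadicAlgCl p) : ℂ_[p]) = algebraMap ℚ_[p] ℂ_[p] (ψ γ) * (y : ℂ_[p]) := by
      rw [Algebra.smul_def, UniformSpace.Completion.coe_mul]
      rfl
    have e : ((γ y : PadicAlgCl p) : ℂ_[p]) - ((ψ γ • y : PadicAlgCl p) : ℂ_[p]) =
        -(cpMap p γ (c - (y : ℂ_[p]))) + algebraMap ℚ_[p] ℂ_[p] (ψ γ) * (c - (y : ℂ_[p])) := by
      rw [map_sub, hc γ hγM, cpMap_coe, e0]
      ring
    rw [e]
    refine (IsUltrametricDist.norm_add_le_max _ _).trans (max_le ?_ ?_)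
    · rw [norm_neg, norm_cpMap]
      exact hyc
    · rw [norm_mul, norm_algMap, hψn, one_mul]
      exact hyc
  have hzmem : γ y - ψ γ • y ∈ Km p (n + k + 1) :=
    sub_mem (conj_mem_Km hyk γ) ((Km p (n + k + 1)).smul_mem hyk)
  have hSz : SS τ k (γ y - ψ γ • y) = (1 - ψ γ) • SS τ k y := by
    rw [map_sub, map_smul, ← comm_SS hτ hyk γ, fix_SS hτ hyk hγ, sub_smul, one_smul]
  have hb1 := norm_SS_le hτ hzmem
  rw [hSz, norm_smul] at hb1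
  -- lower bound for `S y`
  have hy₀norm : ‖y₀‖ = ‖c‖ := by
    have h3 : ‖(y₀ : ℂ_[p])‖ = ‖c‖ := by
      have h4 : ‖c - (y₀ : ℂ_[p])‖ < ‖c‖ :=
        lt_of_le_of_lt hy₀c (div_lt_self hcpos (one_lt_pow₀ hp1 two_ne_zero))
      have e : (y₀ : ℂ_[p]) = c + -(c - (y₀ : ℂ_[p])) := by ring
      rw [e, IsUltrametricDist.norm_add_eq_max_of_norm_ne_norm (by rw [norm_neg]; exact h4.ne'),
        norm_neg, max_eq_left h4.le]
    rw [PadicComplex.norm_extends] at h3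
    exact h3
  have hyy₀ : ‖y - y₀‖ ≤ ‖c‖ / (p : ℝ) ^ 2 := by
    rw [← norm_coe_sub]
    have e : (y : ℂ_[p]) - (y₀ : ℂ_[p]) = -(c - (y : ℂ_[p])) + (c - (y₀ : ℂ_[p])) := by ring
    rw [e]
    refine (IsUltrametricDist.norm_add_le_max _ _).trans (max_le ?_ hy₀c)
    rw [norm_neg]
    exact hyc.trans (min_le_left _ _)
  have hb2 : ‖SS τ k (y - y₀)‖ < ‖c‖ * ((p : ℝ) ^ k)⁻¹ := by
    refine lt_of_le_of_lt (norm_SS_le hτ (sub_mem hyk hy₀k)) ?_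
    refine mul_lt_mul_of_pos_right ?_ hpk
    calc (p : ℝ) * ‖y - y₀‖ ≤ p * (‖c‖ / (p : ℝ) ^ 2) := mul_le_mul_of_nonneg_left hyy₀ hp0.le
      _ = ‖c‖ / p := by field_simp
      _ < ‖c‖ := div_lt_self hcpos hp1
  have hb3 : ‖((p ^ k : ℕ) : PadicAlgCl p) * y₀‖ = ‖c‖ * ((p : ℝ) ^ k)⁻¹ := by
    rw [norm_mul, norm_pk, hy₀norm, mul_comm]
  have hb4 : ‖c‖ * ((p : ℝ) ^ k)⁻¹ ≤ ‖SS τ k y‖ := by
    by_contra hlt
    push Not at hlt
    have e : ((p ^ k : ℕ) : PadicAlgCl p) * y₀ = SS τ k y + -(SS τ k (y - y₀)) := by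
      rw [map_sub, SS_base hτ hy₀n]
      ring
    rw [← hb3, e] at hlt
    have h5 := IsUltrametricDist.norm_add_le_max (SS τ k y) (-(SS τ k (y - y₀)))
    rw [norm_neg] at h5
    have h6 : ‖SS τ k y + -(SS τ k (y - y₀))‖ = ‖c‖ * ((p : ℝ) ^ k)⁻¹ := by rw [← e, hb3]
    rw [h6] at h5 hlt
    exact absurd h5 (not_le.2 (max_lt hlt hb2))
  have hb5 : ‖1 - ψ γ‖ * (‖c‖ * ((p : ℝ) ^ k)⁻¹) ≤ p * δ * ((p : ℝ) ^ k)⁻¹ :=
    (mul_le_mul_of_nonneg_left hb4 hd.le).trans (hb1.trans (by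
      refine mul_le_mul_of_nonneg_right ?_ hpk.le
      exact mul_le_mul_of_nonneg_left hz hp0.le))
  rw [← mul_assoc] at hb5
  have hb6 := le_of_mul_le_mul_right hb5 hpk
  have hb7 : δ ≤ ‖1 - ψ γ‖ * ‖c‖ / (2 * p) := min_le_right _ _
  have hb8 : (p : ℝ) * δ ≤ ‖1 - ψ γ‖ * ‖c‖ / 2 := by
    calc (p : ℝ) * δ ≤ p * (‖1 - ψ γ‖ * ‖c‖ / (2 * p)) := mul_le_mul_of_nonneg_left hb7 hp0.le
      _ = ‖1 - ψ γ‖ * ‖c‖ / 2 := by field_simp
  have hpos : 0 < ‖1 - ψ γ‖ * ‖c‖ := mul_pos hd hcpos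
  linarith

end Pool.Agent.Q21.FM
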