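import Pool.Agent.W292.FM.Tilt
import Pool.Agent.Q21.FM.Tate3

/-!
The kernel of Fontaine's map `θ` is principal.
-/

set_option autoImplicit false
set_option linter.unusedSectionVars false

namespace Pool.Agent.Q21.FM

open Pool.Agent.W292.FM Ideal WittVector Finset

variable {p : ℕ} [hp : Fact p.Prime]

variable (p) in
/-- Fontaine's map `θ : A_inf → 𝒪_C` -/
noncomputable abbrev th : AI p →+* 𝓞_ℂ_[p] := fontaineTheta 𝓞_ℂ_[p] p

variable (p) in
/-- `ξ = [p^♭] - p` -/
noncomputable def xi : AI p := teichmuller p (pflat p) - (p : AI p)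

theorem th_xi : th p (xi p) = 0 := by
  rw [xi, map_sub, fontaineTheta_teichmuller, untilt_pflat, map_natCast, sub_self]

theorem pflat_ne_zero : pflat p ≠ 0 := by
  intro h
  have h1 : PreTilt.coeff 1 (pflat p) = 0 := by rw [h, map_zero]
  rw [pflat, coeff_mkT, mk_eq_zero_iff] at h1
  have h2 := norm_pseq_pow (p := p) 1
  rw [pow_one] at h2
  have h3 : ‖(pseq p 1 : ℂ_[p])‖ ^ p ≤ ‖(p : ℂ_[p])‖ ^ p :=
    pow_le_pow_left₀ (norm_nonneg _) h1 p
  rw [h2] at h3
  have h4 : ‖(p : ℂ_[p])‖ ^ p < ‖(p : ℂ_[p])‖ ^ 1 :=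
    pow_lt_pow_right_of_lt_one₀ (norm_p_pos p) (norm_p_lt_one p) hp.out.one_lt
  rw [pow_one] at h4
  exact absurd h3 (not_le.2 h4)

theorem cc_xi : constantCoeff (xi p) = pflat p := by
  rw [xi, map_sub, map_natCast]
  have h1 : constantCoeff (teichmuller p (pflat p)) = pflat p := teichmuller_coeff_zero p (pflat p)
  rw [h1, CharP.cast_eq_zero, sub_zero]

theorem xi_ne_zero : xi p ≠ 0 := by
  intro h
  apply pflat_ne_zero (p := p)
  rw [← cc_xi, h, map_zero]

theorem p_mul_cancel {x : 𝓞_ℂ_[p]} (h : (p : 𝓞_ℂ_[p]) * x = 0) : x = 0 := by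
  have h1 : (p : ℂ_[p]) * (x : ℂ_[p]) = 0 := by
    have := congrArg (fun y : 𝓞_ℂ_[p] => (y : ℂ_[p])) h
    simpa using this
  rcases mul_eq_zero.1 h1 with h2 | h2
  · exact absurd h2 (p_ne_zero p)
  · exact Subtype.ext h2

theorem step (x : AI p) (hx : th p x = 0) :
    ∃ b x₁ : AI p, th p x₁ = 0 ∧ x = xi p * b + p * x₁ := by
  have h0 : PreTilt.coeff 0 (x.coeff 0) = 0 := by
    rw [← mk_fontaineTheta]
    have : fontaineTheta 𝓞_ℂ_[p] p x = 0 := hx
    rw [this, map_zero]
  obtain ⟨b0, hb⟩ := pflat_dvd h0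
  set b : AI p := teichmuller p b0 with hbdef
  have hy : x - teichmuller p (pflat p) * b ∈ Ideal.span {(p : AI p)} := by
    rw [mem_span_p_iff_coeff_zero_eq_zero]
    change constantCoeff (x - teichmuller p (pflat p) * b) = 0
    rw [map_sub, map_mul]
    have h1 : constantCoeff (teichmuller p (pflat p)) = pflat p :=
      teichmuller_coeff_zero p (pflat p)
    have h2 : constantCoeff b = b0 := teichmuller_coeff_zero p b0
    have h3 : constantCoeff x = x.coeff 0 := rfl
    rw [h1, h2, h3, hb, sub_self]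
  obtain ⟨z, hz⟩ := Ideal.mem_span_singleton.1 hy
  have hx' : x = xi p * b + p * (b + z) := by
    have : x = teichmuller p (pflat p) * b + p * z := by rw [← hz]; ring
    rw [this, xi]; ring
  refine ⟨b, b + z, ?_, hx'⟩
  have h4 := congrArg (th p) hx'
  rw [hx, map_add, map_mul, th_xi, zero_mul, zero_add, map_mul, map_natCast] at h4
  exact p_mul_cancel h4.symm

/-- the kernel of `θ` is generated by `ξ` -/
theorem ker_th (x : AI p) (hx : th p x = 0) : xi p ∣ x := by
  classical
  choose! B N hN hBN using step (p := p)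
  let s : ℕ → AI p := fun n => N^[n] x
  have hs : ∀ n, th p (s n) = 0 := by
    intro n
    induction n with
    | zero => exact hx
    | succ n ih =>
      change th p (N^[n + 1] x) = 0
      rw [Function.iterate_succ_apply']
      exact hN _ ih
  let S : ℕ → AI p := fun n => ∑ i ∈ range n, (p : AI p) ^ i * B (s i)
  have hS : ∀ n, x = xi p * S n + (p : AI p) ^ n * s n := by
    intro n
    induction n with
    | zero => simp [S, s]
    | succ n ih =>
      have h1 : s n = xi p * B (s n) + p * s (n + 1) := by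
        have h2 : s (n + 1) = N (s n) := Function.iterate_succ_apply' _ _ _
        rw [h2]
        exact hBN _ (hs n)
      have h3 : S (n + 1) = S n + (p : AI p) ^ n * B (s n) := sum_range_succ _ _
      have h4 : (p : AI p) ^ n * s n = (p : AI p) ^ n * (xi p * B (s n) + p * s (n + 1)) := by
        rw [← h1]
      rw [h4] at ih
      rw [h3, ih.trans (by ring : _ = xi p * (S n + (p : AI p) ^ n * B (s n)) +
        (p : AI p) ^ (n + 1) * s (n + 1))]
  have hmem : ∀ n (y : AI p), y ∈ (Ideal.span {(p : AI p)} ^ n • ⊤ : Submodule (AI p) (AI p)) ↔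
      (p : AI p) ^ n ∣ y := by
    intro n y
    rw [smul_eq_mul, Ideal.mul_top, Ideal.span_singleton_pow, Ideal.mem_span_singleton]
  obtain ⟨L, hL⟩ := IsPrecomplete.prec (I := Ideal.span {(p : AI p)}) (M := AI p)
    inferInstance (f := S) (by
      intro m n hmn
      rw [SModEq.sub_mem, hmem]
      have h5 : S m - S n = -∑ i ∈ Ico m n, (p : AI p) ^ i * B (s i) := by
        have h6 := sum_range_add_sum_Ico (fun i => (p : AI p) ^ i * B (s i)) hmn
        simp only [S]
        rw [← h6]
        ring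
      rw [h5, dvd_neg]
      refine dvd_sum fun i hi => ?_
      exact Dvd.dvd.mul_right (pow_dvd_pow _ (mem_Ico.1 hi).1) _)
  refine ⟨L, ?_⟩
  rw [← sub_eq_zero]
  refine IsHausdorff.haus (I := Ideal.span {(p : AI p)})
    inferInstance _ fun n => ?_
  rw [SModEq.zero, hmem]
  have h6 := hL n
  rw [SModEq.sub_mem, hmem] at h6
  have h7 : x - xi p * L = xi p * (S n - L) + (p : AI p) ^ n * s n := by
    conv_lhs => rw [hS n]
    ring
  rw [h7]
  exact dvd_add (Dvd.dvd.mul_left h6 _) (Dvd.intro _ rfl)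

end Pool.Agent.Q21.FM
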