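import Mathlib

/-!
The completion of a domain at a principal ideal.
-/

set_option autoImplicit false
set_option linter.unusedSectionVars false

namespace Pool.Agent.Q21.FM

open AdicCompletion

variable {S : Type*} [CommRing S] [IsDomain S] {I : Ideal S} {π : S}

theorem mem_pow_iff (hI : I = Ideal.span {π}) (n : ℕ) (x : S) : x ∈ I ^ n ↔ π ^ n ∣ x := by
  rw [hI, Ideal.span_singleton_pow, Ideal.mem_span_singleton]

/-- `π` is a nonzerodivisor in the completion -/
theorem of_mul_cancel (hI : I = Ideal.span {π}) (hπ : π ≠ 0) {y : AdicCompletion I S}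
    (h : algebraMap S (AdicCompletion I S) π * y = 0) : y = 0 := by
  obtain ⟨f, rfl⟩ := mk_surjective I S y
  apply ext_evalₐ
  intro n
  rw [_root_.map_zero, evalₐ_mk, Ideal.Quotient.eq_zero_iff_mem]
  have h1 := congrArg (evalₐ I (n + 1)) h
  rw [map_mul, _root_.map_zero, evalₐ_mk] at h1
  have h2 : evalₐ I (n + 1) (algebraMap S (AdicCompletion I S) π) = Ideal.Quotient.mk _ π :=
    evalₐ_of I (n + 1) π
  rw [h2, ← map_mul, Ideal.Quotient.eq_zero_iff_mem, mem_pow_iff hI, pow_succ'] at h1
  have h3 : π ^ n ∣ f.val (n + 1) := (mul_dvd_mul_iff_left hπ).1 h1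
  have h4 : Ideal.Quotient.mk (I ^ n) (f.val n) = Ideal.Quotient.mk (I ^ n) (f.val (n + 1)) :=
    Ideal.mk_eq_mk I (Nat.le_succ n) f |>.symm
  have h5 : f.val n - f.val (n + 1) ∈ I ^ n := Ideal.Quotient.eq.1 h4
  have h6 : f.val (n + 1) ∈ I ^ n := (mem_pow_iff hI n _).2 h3
  have h7 := add_mem h5 h6
  rwa [sub_add_cancel] at h7

/-- the kernel of the evaluation modulo `π` is generated by `π` -/
theorem exists_mul_of_eval_one (hI : I = Ideal.span {π}) (hπ : π ≠ 0) {y : AdicCompletion I S}
    (h : evalₐ I 1 y = 0) : ∃ z, y = algebraMap S (AdicCompletion I S) π * z := by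
  obtain ⟨f, rfl⟩ := mk_surjective I S y
  have hf : ∀ m n, m ≤ n → f.val n - f.val m ∈ I ^ m := by
    intro m n hmn
    exact Ideal.Quotient.eq.1 (Ideal.mk_eq_mk I hmn f)
  rw [evalₐ_mk, Ideal.Quotient.eq_zero_iff_mem] at h
  have h1 : ∀ n, π ∣ f.val (n + 1) := by
    intro n
    have h2 := hf 1 (n + 1) (by omega)
    have h3 := add_mem h2 h
    rw [sub_add_cancel, mem_pow_iff hI, pow_one] at h3
    exact h3
  choose b hb using h1
  have hcau : ∀ n, b n ≡ b (n + 1) [SMOD (I ^ n • ⊤ : Submodule S S)] := by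
    intro n
    rw [SModEq.sub_mem, smul_eq_mul, Ideal.mul_top, mem_pow_iff hI]
    have h2 := hf (n + 1) (n + 2) (by omega)
    rw [mem_pow_iff hI, hb, hb, ← mul_sub, pow_succ'] at h2
    have h3 := (mul_dvd_mul_iff_left hπ).1 h2
    rw [← neg_sub, dvd_neg]
    exact h3
  refine ⟨mk I S (AdicCauchySequence.mk I S b hcau), ?_⟩
  apply ext_evalₐ
  intro n
  have h2 : evalₐ I n (algebraMap S (AdicCompletion I S) π) = Ideal.Quotient.mk _ π :=
    evalₐ_of I n π
  rw [map_mul, evalₐ_mk, evalₐ_mk, h2, ← map_mul]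
  have h3 : π * (AdicCauchySequence.mk I S b hcau).val n = f.val (n + 1) := (hb n).symm
  rw [h3]
  exact (Ideal.mk_eq_mk I (Nat.le_succ n) f).symm

/-- every nonzero element is a power of `π` times an element that is nonzero modulo `π` -/
theorem exists_pow_mul (hI : I = Ideal.span {π}) (hπ : π ≠ 0) {y : AdicCompletion I S}
    (hy : y ≠ 0) : ∃ (k : ℕ) (z : AdicCompletion I S),
      y = algebraMap S (AdicCompletion I S) π ^ k * z ∧ evalₐ I 1 z ≠ 0 := by
  have key : ∀ (n : ℕ) (y : AdicCompletion I S), evalₐ I n y ≠ 0 → ∃ (k : ℕ)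
      (z : AdicCompletion I S), y = algebraMap S (AdicCompletion I S) π ^ k * z ∧
      evalₐ I 1 z ≠ 0 := by
    intro n
    induction n with
    | zero =>
      intro y hy
      exfalso
      apply hy
      obtain ⟨a, ha⟩ := Ideal.Quotient.mk_surjective (evalₐ I 0 y)
      rw [← ha, Ideal.Quotient.eq_zero_iff_mem, pow_zero, Ideal.one_eq_top]
      exact Submodule.mem_top
    | succ n ih =>
      intro y hy
      by_cases h1 : evalₐ I 1 y = 0
      · obtain ⟨z, rfl⟩ := exists_mul_of_eval_one hI hπ h1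
        have h2 : evalₐ I n z ≠ 0 := by
          intro h0
          apply hy
          obtain ⟨f, rfl⟩ := mk_surjective I S z
          rw [evalₐ_mk, Ideal.Quotient.eq_zero_iff_mem, mem_pow_iff hI] at h0
          have h2 : evalₐ I (n + 1) (algebraMap S (AdicCompletion I S) π) =
              Ideal.Quotient.mk _ π := evalₐ_of I (n + 1) π
          rw [map_mul, evalₐ_mk, h2, ← map_mul, Ideal.Quotient.eq_zero_iff_mem, mem_pow_iff hI,
            pow_succ']
          have h3 : f.val (n + 1) - f.val n ∈ I ^ n :=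
            Ideal.Quotient.eq.1 (Ideal.mk_eq_mk I (Nat.le_succ n) f)
          rw [mem_pow_iff hI] at h3
          have h4 := dvd_add h3 h0
          rw [sub_add_cancel] at h4
          exact mul_dvd_mul_left π h4
        obtain ⟨k, w, hw, hw1⟩ := ih z h2
        exact ⟨k + 1, w, by rw [hw, pow_succ']; ring, hw1⟩
      · exact ⟨0, y, by simp, h1⟩
  by_contra hcon
  apply hy
  apply ext_evalₐ
  intro n
  rw [_root_.map_zero]
  by_contra h
  exact hcon (key n y h)

end Pool.Agent.Q21.FM
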