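import Pool.Agent.Q21.FM.BdR1
import Pool.Agent.Q21.FM.Compl

/-!
The ring `B_dR` of `ℂ_p`: the extension of `θ`, and the structure of the elements.
-/

set_option autoImplicit false
set_option linter.unusedSectionVars false

namespace Pool.Agent.Q21.FM

open Pool.Agent.W292.FM Ideal WittVector

variable {p : ℕ} [hp : Fact p.Prime]

variable (p) in
/-- `A_inf[1/p]` -/
abbrev AA : Type := Localization.Away (p : AI p)

theorem pAI_ne_zero : (p : AI p) ≠ 0 := by
  intro h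
  have := eq_zero_of_p_mul_eq_zero (p := p) (k := TT p) 1 (by rw [h, mul_zero])
  exact one_ne_zero this

instance isDomain_AA : IsDomain (AA p) :=
  IsLocalization.isDomain_localization (powers_le_nonZeroDivisors_of_noZeroDivisors pAI_ne_zero)

theorem algAA_injective : Function.Injective (algebraMap (AI p) (AA p)) :=
  IsLocalization.injective _ (powers_le_nonZeroDivisors_of_noZeroDivisors (M₀ := AI p) pAI_ne_zero)

variable (p) in
/-- `ξ` in `A_inf[1/p]` -/
noncomputable def xiA : AA p := algebraMap (AI p) (AA p) (xi p)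

theorem xiA_ne_zero : xiA p ≠ 0 := by
  intro h
  apply xi_ne_zero (p := p)
  apply algAA_injective
  rw [map_zero]
  exact h

theorem th_eq_coe (x : AI p) : ((th p x : 𝓞_ℂ_[p]) : ℂ_[p]) = (fontaineTheta 𝓞_ℂ_[p] p x : ℂ_[p]) :=
  rfl

variable (p) in
/-- `θ` with values in `ℂ_p` -/
noncomputable def thC : AI p →+* ℂ_[p] := (Subring.subtype (PadicComplexInt p).toSubring).comp (th p)

theorem thC_apply (x : AI p) : thC p x = ((th p x : 𝓞_ℂ_[p]) : ℂ_[p]) := rfl

variable (p) in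
/-- `θ : A_inf[1/p] → ℂ_p` -/
noncomputable def vth : AA p →+* ℂ_[p] :=
  IsLocalization.Away.lift (p : AI p) (g := thC p) (by
    rw [map_natCast]
    exact isUnit_iff_ne_zero.2 (p_ne_zero p))

theorem vth_alg (x : AI p) : vth p (algebraMap (AI p) (AA p) x) = thC p x :=
  IsLocalization.Away.lift_eq _ _ _

theorem exists_repr_AA (x : AA p) : ∃ (n : ℕ) (a : AI p), x * (p : AA p) ^ n =
    algebraMap (AI p) (AA p) a := by
  obtain ⟨⟨a, ⟨_, n, rfl⟩⟩, h⟩ := IsLocalization.surj (Submonoid.powers (p : AI p)) x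
  refine ⟨n, a, ?_⟩
  simp only [map_pow, map_natCast] at h
  exact h

theorem isUnit_pAA : IsUnit (p : AA p) := by
  have := IsLocalization.Away.algebraMap_isUnit (S := AA p) (p : AI p)
  rwa [map_natCast] at this

/-- kernel of `θ` on `A_inf[1/p]` -/
theorem vth_eq_zero_iff (x : AA p) : vth p x = 0 ↔ xiA p ∣ x := by
  constructor
  · intro h
    obtain ⟨n, a, hna⟩ := exists_repr_AA x
    have h1 : thC p a = 0 := by
      rw [← vth_alg, ← hna, map_mul, h, zero_mul]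
    have h2 : th p a = 0 := Subtype.ext h1
    have h3 : xiA p ∣ algebraMap (AI p) (AA p) a := map_dvd _ (ker_th a h2)
    rw [← hna] at h3
    exact ((isUnit_pAA.pow n).dvd_mul_right).1 h3
  · rintro ⟨y, rfl⟩
    rw [map_mul, xiA, vth_alg, thC_apply, th_xi]
    simp

theorem mem_kerT_iff (x : AA p) : x ∈ kerT 𝓞_ℂ_[p] p ↔ xiA p ∣ x := by
  rw [kerT, RingHom.mem_ker]
  constructor
  · intro h
    obtain ⟨n, a, hna⟩ := exists_repr_AA x
    have h1 : algebraMap 𝓞_ℂ_[p] (Localization.Away (p : 𝓞_ℂ_[p])) (th p a) = 0 := by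
      have h2 := thetaInvertP_algebraMap (R := 𝓞_ℂ_[p]) p a
      rw [← h2, ← hna, map_mul, h, zero_mul]
    have hp0 : (p : 𝓞_ℂ_[p]) ≠ 0 := by
      intro h0
      apply p_ne_zero p
      have := congrArg (fun y : 𝓞_ℂ_[p] => (y : ℂ_[p])) h0
      simpa using this
    have hinj : Function.Injective (algebraMap 𝓞_ℂ_[p] (Localization.Away (p : 𝓞_ℂ_[p]))) :=
      IsLocalization.injective _ (powers_le_nonZeroDivisors_of_noZeroDivisors hp0)
    have h2 : th p a = 0 := hinj (by rw [h1, map_zero])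
    have h3 : xiA p ∣ algebraMap (AI p) (AA p) a := map_dvd _ (ker_th a h2)
    rw [← hna] at h3
    exact ((isUnit_pAA.pow n).dvd_mul_right).1 h3
  · rintro ⟨y, rfl⟩
    rw [map_mul, xiA]
    have h2 := thetaInvertP_algebraMap (R := 𝓞_ℂ_[p]) p (xi p)
    have h3 : fontaineTheta 𝓞_ℂ_[p] p (xi p) = 0 := th_xi
    rw [h3, map_zero] at h2
    rw [h2, zero_mul]

theorem kerT_eq : kerT 𝓞_ℂ_[p] p = Ideal.span {xiA p} := by
  ext x
  rw [mem_kerT_iff, Ideal.mem_span_singleton]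

/-- equivariance of `θ` -/
theorem vth_locMap (g : GQp p) (x : AA p) :
    vth p (locMap p (intMap p g) x) = cpMap p g (vth p x) := by
  have key : (vth p).comp (locMap p (intMap p g)) =
      ((cpMap p g : ℂ_[p] ≃+* ℂ_[p]) : ℂ_[p] →+* ℂ_[p]).comp (vth p) := by
    refine IsLocalization.ringHom_ext (Submonoid.powers (p : AI p)) ?_
    ext x
    simp only [RingHom.comp_apply]
    rw [locMap_algebraMap, vth_alg, vth_alg, thC_apply, thC_apply]
    have h1 := theta_map (R := 𝓞_ℂ_[p]) p (intMap p g) x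
    have h2 := congrArg (fun y : 𝓞_ℂ_[p] => (y : ℂ_[p])) h1
    exact h2
  exact congrArg (fun f : AA p →+* ℂ_[p] => f x) key

/-- `g ξ = u_g ξ` -/
theorem exists_ug (g : GQp p) : ∃ u : AA p, locMap p (intMap p g) (xiA p) = u * xiA p := by
  have h1 : vth p (locMap p (intMap p g) (xiA p)) = 0 := by
    rw [vth_locMap, (vth_eq_zero_iff (xiA p)).2 dvd_rfl, map_zero]
  obtain ⟨u, hu⟩ := (vth_eq_zero_iff _).1 h1
  exact ⟨u, by rw [hu, mul_comm]⟩

/-- the factor `u_g` -/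
noncomputable def ug (g : GQp p) : AA p := (exists_ug g).choose

theorem ug_spec (g : GQp p) : locMap p (intMap p g) (xiA p) = ug g * xiA p :=
  (exists_ug g).choose_spec

variable (p) in
/-- `B_dR^+` -/
abbrev BP : Type := BDeRhamPlus 𝓞_ℂ_[p] p

variable (p) in
/-- `ξ` in `B_dR^+` -/
noncomputable def xiP : BP p := toPlus p (xiA p)

theorem xiP_mul_cancel {y : BP p} (h : xiP p * y = 0) : y = 0 :=
  of_mul_cancel (S := AA p) (I := kerT 𝓞_ℂ_[p] p) (π := xiA p) kerT_eq xiA_ne_zero h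

theorem xiP_pow_mul_cancel {y z : BP p} (n : ℕ) (h : xiP p ^ n * y = xiP p ^ n * z) : y = z := by
  induction n with
  | zero => simpa using h
  | succ n ih =>
    apply ih
    rw [pow_succ', mul_assoc, mul_assoc] at h
    have h1 : xiP p * (xiP p ^ n * y - xiP p ^ n * z) = 0 := by rw [mul_sub, h, sub_self]
    exact sub_eq_zero.1 (xiP_mul_cancel h1)

theorem exists_xi_pow {y : BP p} (hy : y ≠ 0) : ∃ (k : ℕ) (z : BP p), y = xiP p ^ k * z ∧
    evalP p 1 z ≠ 0 :=
  exists_pow_mul (S := AA p) (I := kerT 𝓞_ℂ_[p] p) (π := xiA p) kerT_eq xiA_ne_zero hy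

variable (p) in
/-- `θ` on the quotient by `(ker θ)^1` -/
noncomputable def vthQ : AA p ⧸ kerT 𝓞_ℂ_[p] p ^ 1 →+* ℂ_[p] :=
  Ideal.Quotient.lift _ (vth p) (fun x hx => by
    rw [pow_one, mem_kerT_iff] at hx
    exact (vth_eq_zero_iff x).2 hx)

theorem vthQ_eq_zero {x : AA p ⧸ kerT 𝓞_ℂ_[p] p ^ 1} (h : vthQ p x = 0) : x = 0 := by
  obtain ⟨a, rfl⟩ := Ideal.Quotient.mk_surjective x
  have h1 : vth p a = 0 := h
  rw [Ideal.Quotient.eq_zero_iff_mem, pow_one, mem_kerT_iff]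
  exact (vth_eq_zero_iff a).1 h1

variable (p) in
/-- `θ : B_dR^+ → ℂ_p` -/
noncomputable def TH : BP p →+* ℂ_[p] := (vthQ p).comp (evalP p 1)

theorem TH_toPlus (x : AA p) : TH p (toPlus p x) = vth p x := by
  rw [TH, RingHom.comp_apply, evalP_toPlus]
  rfl

theorem TH_ne_zero {z : BP p} (h : evalP p 1 z ≠ 0) : TH p z ≠ 0 := by
  intro h0
  exact h (vthQ_eq_zero h0)

theorem TH_plusMap (g : GQp p) (x : BP p) :
    TH p (plusMap p (intMap p g) x) = cpMap p g (TH p x) := by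
  rw [TH, RingHom.comp_apply, RingHom.comp_apply, evalP_plusMap]
  obtain ⟨a, ha⟩ := Ideal.Quotient.mk_surjective (evalP p 1 x)
  rw [← ha]
  exact vth_locMap g a

theorem plusMap_xiP (g : GQp p) : plusMap p (intMap p g) (xiP p) = toPlus p (ug g) * xiP p := by
  rw [xiP, plusMap_toPlus, ug_spec, map_mul]

theorem eq_of_bounded (f : ℤ_[p] →+* ℂ_[p]) (hf : ∀ y, ‖f y‖ ≤ 1) (x : ℤ_[p]) :
    f x = algebraMap ℚ_[p] ℂ_[p] (x : ℚ_[p]) := by
  have hb : ∀ n : ℕ, ‖f x - algebraMap ℚ_[p] ℂ_[p] (x : ℚ_[p])‖ ≤ ‖(p : ℂ_[p])‖ ^ n := by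
    intro n
    obtain ⟨y, hy⟩ := Ideal.mem_span_singleton.1 (PadicInt.appr_spec n x)
    have hx : x = (x.appr n : ℤ_[p]) + (p : ℤ_[p]) ^ n * y := by rw [← hy]; ring
    have h1 : f x = (x.appr n : ℂ_[p]) + (p : ℂ_[p]) ^ n * f y := by
      conv_lhs => rw [hx]
      rw [map_add, map_mul, map_pow, map_natCast, map_natCast]
    have h2 : algebraMap ℚ_[p] ℂ_[p] (x : ℚ_[p]) =
        (x.appr n : ℂ_[p]) + (p : ℂ_[p]) ^ n * algebraMap ℚ_[p] ℂ_[p] (y : ℚ_[p]) := by
      conv_lhs => rw [hx]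
      rw [PadicInt.coe_add, PadicInt.coe_mul, PadicInt.coe_pow, PadicInt.coe_natCast,
        PadicInt.coe_natCast, map_add, map_mul, map_pow, map_natCast, map_natCast]
    have h3 : f x - algebraMap ℚ_[p] ℂ_[p] (x : ℚ_[p]) =
        (p : ℂ_[p]) ^ n * (f y + -algebraMap ℚ_[p] ℂ_[p] (y : ℚ_[p])) := by
      rw [h1, h2]; ring
    rw [h3, norm_mul, norm_pow]
    refine mul_le_of_le_one_right (pow_nonneg (norm_nonneg _) _) ?_
    refine (IsUltrametricDist.norm_add_le_max _ _).trans (max_le (hf y) ?_)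
    rw [norm_neg, norm_algMap]
    exact y.2
  have h0 : ‖f x - algebraMap ℚ_[p] ℂ_[p] (x : ℚ_[p])‖ ≤ 0 :=
    ge_of_tendsto' (tendsto_norm_p_pow p) hb
  exact sub_eq_zero.1 (norm_le_zero_iff.1 h0)

theorem TH_algebraMap (c : ℚ_[p]) :
    TH p (algebraMap ℚ_[p] (BP p) c) = algebraMap ℚ_[p] ℂ_[p] c := by
  rw [algebraMap_plus, TH_toPlus]
  have key : (vth p).comp (qpMap 𝓞_ℂ_[p] p) = algebraMap ℚ_[p] ℂ_[p] := by
    refine IsLocalization.ringHom_ext (nonZeroDivisors ℤ_[p]) ?_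
    apply RingHom.ext
    intro x
    change vth p (qpMap 𝓞_ℂ_[p] p (algebraMap ℤ_[p] ℚ_[p] x)) = _
    rw [qpMap_coe, vth_alg]
    exact eq_of_bounded ((thC p).comp (zpMap 𝓞_ℂ_[p] p)) (fun y => norm_int_le p _) x
  exact congrArg (fun f : ℚ_[p] →+* ℂ_[p] => f c) key

/-- elements of the multiplicative set inverted in `B_dR` -/
theorem genSub_repr {s : BP p} (hs : s ∈ genSub 𝓞_ℂ_[p] p) :
    ∃ (m : ℕ) (u v : BP p), u * v = 1 ∧ s = u * xiP p ^ m := by
  induction hs using Submonoid.closure_induction with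
  | mem x hx =>
    obtain ⟨a, ha, rfl⟩ := hx
    have h1 : Ideal.span {a} = Ideal.span {xiA p} := by
      rw [← kerT_eq]
      exact ha.symm
    rw [Ideal.span_singleton_eq_span_singleton] at h1
    obtain ⟨u, hu⟩ := h1.symm
    refine ⟨1, toPlus p (u : AA p), toPlus p ((u⁻¹ : (AA p)ˣ) : AA p), ?_, ?_⟩
    · rw [← map_mul, Units.mul_inv, map_one]
    · change toPlus p a = _
      rw [← hu, map_mul, pow_one, mul_comm]
      rfl
  | one => exact ⟨0, 1, 1, by simp, by simp⟩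
  | mul x y _ _ hx hy =>
    obtain ⟨m, u, v, huv, rfl⟩ := hx
    obtain ⟨m', u', v', huv', rfl⟩ := hy
    refine ⟨m + m', u * u', v * v', ?_, ?_⟩
    · calc u * u' * (v * v') = (u * v) * (u' * v') := by ring
        _ = 1 := by rw [huv, huv', one_mul]
    · rw [pow_add]; ring

theorem genSub_nzd : genSub 𝓞_ℂ_[p] p ≤ nonZeroDivisors (BP p) := by
  intro s hs
  obtain ⟨m, u, v, huv, rfl⟩ := genSub_repr hs
  rw [mem_nonZeroDivisors_iff_right]
  intro x hx
  have h1 : xiP p ^ m * (x * u) = xiP p ^ m * 0 := by rw [mul_zero, ← hx]; ring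
  have h2 := xiP_pow_mul_cancel m h1
  calc x = x * (u * v) := by rw [huv, mul_one]
    _ = (x * u) * v := by ring
    _ = 0 := by rw [h2, zero_mul]

variable (p) in
/-- Mathlib's `BDeRham 𝓞_ℂ_[p] p` -/
abbrev BD : Type := Localization (genSub 𝓞_ℂ_[p] p)

theorem algBD_injective : Function.Injective (algebraMap (BP p) (BD p)) :=
  IsLocalization.injective _ genSub_nzd

/-- A nonzero eigenvector of Galois in `B_dR` gives a nonzero vector of `ℂ_p`. -/
theorem exists_vec {x : BD p} (hx : x ≠ 0) (c : GQp p → ℚ_[p])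
    (h : ∀ g, bdrMap p (intMap p g) x = algebraMap ℚ_[p] (BD p) (c g) * x) :
    ∃ (c₀ : ℂ_[p]) (k m : ℕ), c₀ ≠ 0 ∧ ∀ g, vth p (ug g) ^ k * cpMap p g c₀ =
      algebraMap ℚ_[p] ℂ_[p] (c g) * vth p (ug g) ^ m * c₀ := by
  obtain ⟨⟨y, s⟩, hys⟩ := IsLocalization.surj (genSub 𝓞_ℂ_[p] p) x
  obtain ⟨m, u, v, huv, hs⟩ := genSub_repr s.2
  simp only at hys
  -- `x ξ^m = y'`
  have h1 : x * algebraMap (BP p) (BD p) (xiP p ^ m) = algebraMap (BP p) (BD p) (v * y) := by
    rw [map_mul, ← hys, hs, map_mul]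
    have h2 : algebraMap (BP p) (BD p) v * algebraMap (BP p) (BD p) u = 1 := by
      rw [← map_mul, mul_comm v u, huv, map_one]
    calc x * algebraMap (BP p) (BD p) (xiP p ^ m) =
        (algebraMap (BP p) (BD p) v * algebraMap (BP p) (BD p) u) *
          (x * algebraMap (BP p) (BD p) (xiP p ^ m)) := by rw [h2, one_mul]
      _ = _ := by ring
  set y' := v * y with hy'
  have hy'0 : y' ≠ 0 := by
    intro h0
    rw [h0, map_zero] at h1
    apply hx
    have h2 : x * algebraMap (BP p) (BD p) s = 0 := by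
      rw [hs, map_mul, mul_comm (algebraMap (BP p) (BD p) u), ← mul_assoc, h1, zero_mul]
    exact ((IsLocalization.map_units (BD p) s).mul_left_eq_zero).1 h2
  obtain ⟨k, y₀, hy₀, hy₀1⟩ := exists_xi_pow hy'0
  refine ⟨TH p y₀, k, m, TH_ne_zero hy₀1, fun g => ?_⟩
  have h3 := congrArg (bdrMap p (intMap p g)) h1
  rw [map_mul, h g, bdrMap_algebraMap, bdrMap_algebraMap, map_pow, plusMap_xiP] at h3
  have h4 : algebraMap (BP p) (BD p) (plusMap p (intMap p g) y') =
      algebraMap (BP p) (BD p) (algebraMap ℚ_[p] (BP p) (c g) * toPlus p (ug g) ^ m * y') := by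
    rw [← h3, map_mul, ← h1, algebraMap_bdr, mul_pow, map_mul, map_mul]
    rw [algebraMap_plus]
    ring
  have h5 := algBD_injective h4
  rw [hy₀, map_mul, map_pow, plusMap_xiP, mul_pow] at h5
  have h6 : xiP p ^ k * (toPlus p (ug g) ^ k * plusMap p (intMap p g) y₀) =
      xiP p ^ k * (algebraMap ℚ_[p] (BP p) (c g) * toPlus p (ug g) ^ m * y₀) := by
    calc _ = toPlus p (ug g) ^ k * xiP p ^ k * plusMap p (intMap p g) y₀ := by ring
      _ = _ := by rw [h5]; ring
  have h7 := congrArg (TH p) (xiP_pow_mul_cancel k h6)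
  rw [map_mul, map_mul, map_mul, map_pow, map_pow, TH_toPlus, TH_algebraMap, TH_plusMap] at h7
  exact h7

end Pool.Agent.Q21.FM
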