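import Pool.Agent.Q21.FM.BdR2

/-!
The class of `[ε] - 1` modulo `(ker θ)²` and the action of Galois on it.
-/

set_option autoImplicit false
set_option linter.unusedSectionVars false

namespace Pool.Agent.Q21.FM

open Pool.Agent.W292.FM Ideal WittVector Finset

variable {p : ℕ} [hp : Fact p.Prime]

/-- compatible systems of `p`-power roots of `1` -/
def IsSys (r : ℕ → PadicAlgCl p) : Prop := r 0 = 1 ∧ ∀ n, r (n + 1) ^ p = r n

theorem IsSys.pow_eq_one {r : ℕ → PadicAlgCl p} (h : IsSys r) (n : ℕ) : r n ^ p ^ n = 1 := by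
  induction n with
  | zero => rw [pow_zero, pow_one]; exact h.1
  | succ n ih => rw [pow_succ', pow_mul, h.2, ih]

theorem IsSys.norm_eq {r : ℕ → PadicAlgCl p} (h : IsSys r) (n : ℕ) : ‖r n‖ = 1 :=
  norm_rootOfUnity (pow_ne_zero _ hp.out.ne_zero) (h.pow_eq_one n)

theorem IsSys.mul {r s : ℕ → PadicAlgCl p} (hr : IsSys r) (hs : IsSys s) :
    IsSys (fun n => r n * s n) :=
  ⟨by simp [hr.1, hs.1], fun n => by simp only [mul_pow, hr.2, hs.2]⟩

theorem IsSys.pow {r : ℕ → PadicAlgCl p} (hr : IsSys r) (k : ℕ) : IsSys (fun n => r n ^ k) :=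
  ⟨by simp [hr.1], fun n => by simp only [← pow_mul, mul_comm k p]; rw [pow_mul, hr.2]⟩

theorem IsSys.one : IsSys (fun _ : ℕ => (1 : PadicAlgCl p)) := ⟨rfl, fun _ => one_pow p⟩

theorem IsSys.gal {r : ℕ → PadicAlgCl p} (hr : IsSys r) (g : GQp p) : IsSys (fun n => g (r n)) :=
  ⟨by simp [hr.1], fun n => by simp only [← map_pow, hr.2]⟩

/-- the sequence in `𝒪_C` -/
noncomputable def toO {r : ℕ → PadicAlgCl p} (h : IsSys r) (n : ℕ) : 𝓞_ℂ_[p] :=
  ⟨(r n : ℂ_[p]), by
    rw [mem_int_iff, PadicComplex.norm_extends]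
    exact (h.norm_eq n).le⟩

theorem coe_pow' (x : PadicAlgCl p) (k : ℕ) : ((x ^ k : PadicAlgCl p) : ℂ_[p]) = (x : ℂ_[p]) ^ k :=
  map_pow (UniformSpace.Completion.coeRingHom : PadicAlgCl p →+* ℂ_[p]) x k

theorem toO_pow {r : ℕ → PadicAlgCl p} (h : IsSys r) (n : ℕ) : toO h (n + 1) ^ p = toO h n := by
  apply Subtype.ext
  change ((r (n + 1) : ℂ_[p])) ^ p = (r n : ℂ_[p])
  rw [← coe_pow', h.2]

/-- the element of the tilt -/
noncomputable def el {r : ℕ → PadicAlgCl p} (h : IsSys r) : TT p := mkT (toO h) (toO_pow h)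

theorem untilt_el {r : ℕ → PadicAlgCl p} (h : IsSys r) : (el h).untilt = 1 := by
  rw [el, untilt_mkT]
  apply Subtype.ext
  change ((r 0 : ℂ_[p])) = 1
  rw [h.1]
  rfl

theorem el_ext {r s : ℕ → PadicAlgCl p} (hr : IsSys r) (hs : IsSys s) (h : ∀ n, r n = s n) :
    el hr = el hs := by
  have : r = s := funext h
  subst this
  rfl

theorem el_mul {r s : ℕ → PadicAlgCl p} (hr : IsSys r) (hs : IsSys s) :
    el (hr.mul hs) = el hr * el hs := by
  refine Perfection.ext fun n => ?_
  change PreTilt.coeff n (el (hr.mul hs)) = PreTilt.coeff n (el hr * el hs)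
  rw [map_mul, el, el, el, coeff_mkT, coeff_mkT, coeff_mkT, ← map_mul]
  congr 1
  apply Subtype.ext
  change ((r n * s n : PadicAlgCl p) : ℂ_[p]) = (r n : ℂ_[p]) * (s n : ℂ_[p])
  exact map_mul (UniformSpace.Completion.coeRingHom : PadicAlgCl p →+* ℂ_[p]) _ _

theorem tiltMap_el {r : ℕ → PadicAlgCl p} (hr : IsSys r) (g : GQp p) :
    tiltMap p (intMap p g) (el hr) = el (hr.gal g) := by
  refine Perfection.ext fun n => ?_
  change PreTilt.coeff n _ = PreTilt.coeff n _
  rw [coeff_tiltMap, el, el, coeff_mkT, coeff_mkT, modPMap_mk]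
  congr 1
  apply Subtype.ext
  exact cpMap_coe p g (r n)

theorem th_el {r : ℕ → PadicAlgCl p} (hr : IsSys r) : th p (teichmuller p (el hr) - 1) = 0 := by
  rw [map_sub, map_one, fontaineTheta_teichmuller, untilt_el, sub_self]

/-- `[r] - 1 = ξ W_r` -/
noncomputable def WW {r : ℕ → PadicAlgCl p} (hr : IsSys r) : AI p := (ker_th _ (th_el hr)).choose

theorem WW_spec {r : ℕ → PadicAlgCl p} (hr : IsSys r) :
    teichmuller p (el hr) - 1 = xi p * WW hr := (ker_th _ (th_el hr)).choose_spec

/-- `δ(r) = θ(W_r)` -/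
noncomputable def del {r : ℕ → PadicAlgCl p} (hr : IsSys r) : ℂ_[p] := thC p (WW hr)

theorem norm_del_le {r : ℕ → PadicAlgCl p} (hr : IsSys r) : ‖del hr‖ ≤ 1 := norm_int_le p _

theorem del_mul {r s : ℕ → PadicAlgCl p} (hr : IsSys r) (hs : IsSys s) :
    del (hr.mul hs) = del hr + del hs := by
  have h1 : xi p * WW (hr.mul hs) = xi p * (teichmuller p (el hr) * WW hs + WW hr) := by
    rw [← WW_spec, el_mul hr hs, map_mul, mul_add, ← mul_assoc, mul_comm (xi p), mul_assoc, ← WW_spec,
      ← WW_spec]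
    ring
  have h2 := mul_left_cancel₀ xi_ne_zero h1
  rw [del, h2, map_add, map_mul]
  have h3 : thC p (teichmuller p (el hr)) = 1 := by
    rw [thC_apply, fontaineTheta_teichmuller, untilt_el]
    rfl
  rw [h3, one_mul, add_comm]
  rfl

theorem del_congr {r s : ℕ → PadicAlgCl p} (hr : IsSys r) (hs : IsSys s) (h : ∀ n, r n = s n) :
    del hr = del hs := by
  have : r = s := funext h
  subst this
  rfl

theorem del_one : del (IsSys.one (p := p)) = 0 := by
  have h := del_mul (IsSys.one (p := p)) (IsSys.one (p := p))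
  rw [del_congr (IsSys.one.mul IsSys.one) (IsSys.one (p := p)) (fun n => by simp)] at h
  exact (left_eq_add.1 h)

theorem del_pow {r : ℕ → PadicAlgCl p} (hr : IsSys r) (k : ℕ) : del (hr.pow k) = k * del hr := by
  induction k with
  | zero =>
    rw [del_congr (hr.pow 0) IsSys.one (fun n => by simp), del_one]
    simp
  | succ k ih =>
    rw [del_congr (hr.pow (k + 1)) ((hr.pow k).mul hr) (fun n => by simp [pow_succ]),
      del_mul (hr.pow k) hr, ih]
    push_cast
    ring

/-- equivariance -/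
theorem del_gal {r : ℕ → PadicAlgCl p} (hr : IsSys r) (g : GQp p) :
    del (hr.gal g) = vth p (ug g) * cpMap p g (del hr) := by
  have h1 : xiA p * algebraMap (AI p) (AA p) (WW (hr.gal g)) =
      xiA p * (ug g * locMap p (intMap p g) (algebraMap (AI p) (AA p) (WW hr))) := by
    calc xiA p * algebraMap (AI p) (AA p) (WW (hr.gal g)) =
        algebraMap (AI p) (AA p) (teichmuller p (el (hr.gal g)) - 1) := by
          rw [WW_spec, map_mul, xiA]
      _ = locMap p (intMap p g) (algebraMap (AI p) (AA p) (teichmuller p (el hr) - 1)) := by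
          rw [locMap_algebraMap]
          have e : WittVector.map (tiltMap p (intMap p g)) (teichmuller p (el hr) - 1) =
              teichmuller p (el (hr.gal g)) - 1 := by
            rw [map_sub, map_one, map_teichmuller, tiltMap_el]
          rw [e]
      _ = _ := by
          rw [WW_spec, map_mul, map_mul]
          have : algebraMap (AI p) (AA p) (xi p) = xiA p := rfl
          rw [this, ug_spec]
          ring
  have h2 := mul_left_cancel₀ xiA_ne_zero h1
  have h3 := congrArg (vth p) h2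
  rw [map_mul, vth_alg, vth_locMap, vth_alg] at h3
  exact h3

end Pool.Agent.Q21.FM
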