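import Pool.Agent.Q21.FM.BdR3

/-!
Galois acts on the class of `[ε] - 1` through the cyclotomic character.
-/

set_option autoImplicit false
set_option linter.unusedSectionVars false

namespace Pool.Agent.Q21.FM

open Pool.Agent.W292.FM Ideal WittVector Finset

variable {p : ℕ} [hp : Fact p.Prime]

instance hasRoots (i : ℕ) : HasEnoughRootsOfUnity (PadicAlgCl p) (p ^ i) := by
  have : NeZero (p ^ i : ℕ) := ⟨pow_ne_zero _ hp.out.ne_zero⟩
  have : NeZero ((p ^ i : ℕ) : PadicAlgCl p) := ⟨by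
    rw [Nat.cast_ne_zero]
    exact pow_ne_zero _ hp.out.ne_zero⟩
  exact IsSepClosed.hasEnoughRootsOfUnity (PadicAlgCl p) (p ^ i)

theorem exists_proot (x : PadicAlgCl p) : ∃ y : PadicAlgCl p, y ^ p = x :=
  IsAlgClosed.exists_pow_nat_eq x hp.out.pos

/-- a choice of `p`-th roots -/
noncomputable def prt (x : PadicAlgCl p) : PadicAlgCl p := (exists_proot x).choose

theorem prt_pow (x : PadicAlgCl p) : prt x ^ p = x := (exists_proot x).choose_spec

variable (p) in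
/-- a compatible system of primitive `p`-power roots of unity -/
noncomputable def zs : ℕ → PadicAlgCl p
  | 0 => 1
  | n + 1 => prt^[n] (zt p 1)

theorem zs_sys : IsSys (zs p) := by
  refine ⟨rfl, fun n => ?_⟩
  rcases n with _ | n
  · change (zt p 1) ^ p = 1
    have := zt_pow (p := p) 1
    rwa [pow_one] at this
  · change (prt^[n + 1] (zt p 1)) ^ p = prt^[n] (zt p 1)
    rw [Function.iterate_succ_apply', prt_pow]

variable (p) in
/-- the cyclotomic character of `ℚ_p` -/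
noncomputable def chi (g : GQp p) : ℤ_[p]ˣ := cyclotomicCharacter (PadicAlgCl p) p (g : PadicAlgCl p ≃+* PadicAlgCl p)

theorem chi_spec (g : GQp p) {n : ℕ} {t : PadicAlgCl p} (ht : t ^ p ^ n = 1) :
    g t = t ^ ((chi p g).val.toZModPow n).val :=
  cyclotomicCharacter.spec p (g : PadicAlgCl p ≃+* PadicAlgCl p) t ht

theorem norm_sub_val_le (x : ℤ_[p]) (N : ℕ) :
    ‖(x : ℚ_[p]) - ((PadicInt.toZModPow N x).val : ℚ_[p])‖ ≤ (p : ℝ) ^ (-(N : ℤ)) := by
  have h1 : x - ((PadicInt.toZModPow N x).val : ℤ_[p]) ∈ Ideal.span {(p : ℤ_[p]) ^ N} := by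
    rw [← PadicInt.ker_toZModPow, RingHom.mem_ker, map_sub, map_natCast]
    have : NeZero (p ^ N) := ⟨pow_ne_zero _ hp.out.ne_zero⟩
    rw [ZMod.natCast_zmod_val, sub_self]
  rw [← PadicInt.norm_le_pow_iff_mem_span_pow] at h1
  have h2 : ((x - ((PadicInt.toZModPow N x).val : ℤ_[p]) : ℤ_[p]) : ℚ_[p]) =
      (x : ℚ_[p]) - ((PadicInt.toZModPow N x).val : ℚ_[p]) := by
    rw [PadicInt.coe_sub, PadicInt.coe_natCast]
  rw [← h2]
  exact h1

/-- `δ(g ε) = χ(g) δ(ε)` -/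
theorem del_gal_sys {r : ℕ → PadicAlgCl p} (hr : IsSys r) (g : GQp p) :
    del (hr.gal g) = algebraMap ℚ_[p] ℂ_[p] ((chi p g : ℤ_[p]) : ℚ_[p]) * del hr := by
  have hp1 : (1 : ℝ) < p := by exact_mod_cast hp.out.one_lt
  have key : ∀ N : ℕ, ‖del (hr.gal g) -
      algebraMap ℚ_[p] ℂ_[p] ((chi p g : ℤ_[p]) : ℚ_[p]) * del hr‖ ≤ ‖(p : ℂ_[p])‖ ^ N := by
    intro N
    set a : ℕ := (PadicInt.toZModPow N (chi p g : ℤ_[p])).val with ha
    have hrne : ∀ n, r n ≠ 0 := fun n h0 => by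
      have := hr.norm_eq n
      rw [h0, norm_zero] at this
      exact zero_ne_one this
    -- the quotient system
    let q : ℕ → PadicAlgCl p := fun n => g (r n) * (r n ^ a)⁻¹
    have hq : IsSys q := by
      refine ⟨by simp [q, hr.1], fun n => ?_⟩
      simp only [q]
      rw [mul_pow, inv_pow, ← map_pow, ← pow_mul, mul_comm a p, pow_mul, hr.2]
    have hqN : ∀ n ≤ N, q n = 1 := by
      intro n hn
      have h1 : r n ^ p ^ N = 1 := by
        rw [show N = n + (N - n) by omega, pow_add, pow_mul, hr.pow_eq_one, one_pow]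
      simp only [q]
      rw [chi_spec g h1]
      exact mul_inv_cancel₀ (pow_ne_zero _ (hrne n))
    let s : ℕ → PadicAlgCl p := fun n => q (n + N)
    have hs : IsSys s := by
      refine ⟨?_, fun n => ?_⟩
      · change q (0 + N) = 1
        rw [zero_add]
        exact hqN N le_rfl
      · change q (n + 1 + N) ^ p = q (n + N)
        rw [show n + 1 + N = (n + N) + 1 by ring, hq.2]
    have hqpow : ∀ k n, q (n + k) ^ p ^ k = q n := by
      intro k
      induction k with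
      | zero => intro n; simp
      | succ k ih =>
        intro n
        rw [show n + (k + 1) = (n + k) + 1 by ring, pow_succ', pow_mul, hq.2, ih]
    have h1 : del (hr.gal g) = del ((hr.pow a).mul (hs.pow (p ^ N))) := by
      refine del_congr _ _ fun n => ?_
      change g (r n) = r n ^ a * q (n + N) ^ p ^ N
      rw [hqpow N n]
      simp only [q]
      rw [mul_comm (g (r n)), ← mul_assoc, mul_inv_cancel₀ (pow_ne_zero _ (hrne n)), one_mul]
    rw [h1, del_mul (hr.pow a) (hs.pow (p ^ N)), del_pow hr, del_pow hs]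
    have e : (a : ℂ_[p]) * del hr + ((p ^ N : ℕ) : ℂ_[p]) * del hs -
        algebraMap ℚ_[p] ℂ_[p] ((chi p g : ℤ_[p]) : ℚ_[p]) * del hr =
        ((p ^ N : ℕ) : ℂ_[p]) * del hs + -(algebraMap ℚ_[p] ℂ_[p]
          (((chi p g : ℤ_[p]) : ℚ_[p]) - (a : ℚ_[p])) * del hr) := by
      rw [map_sub, map_natCast]; ring
    rw [e]
    refine (IsUltrametricDist.norm_add_le_max _ _).trans (max_le ?_ ?_)
    · rw [norm_mul, Nat.cast_pow, norm_pow]
      exact mul_le_of_le_one_right (pow_nonneg (norm_nonneg _) _) (norm_del_le hs)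
    · rw [norm_neg, norm_mul, norm_algMap]
      refine (mul_le_of_le_one_right (norm_nonneg _) (norm_del_le hr)).trans ?_
      have h2 := norm_sub_val_le (chi p g : ℤ_[p]) N
      rw [norm_p, inv_pow, ← zpow_natCast, ← zpow_neg]
      exact h2
  have h0 : ‖del (hr.gal g) - algebraMap ℚ_[p] ℂ_[p] ((chi p g : ℤ_[p]) : ℚ_[p]) * del hr‖ ≤ 0 :=
    ge_of_tendsto' (tendsto_norm_p_pow p) key
  exact sub_eq_zero.1 (norm_le_zero_iff.1 h0)

variable (p) in
/-- `e = δ(ε)` -/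
noncomputable def ee : ℂ_[p] := del (zs_sys (p := p))

/-- `[ε] - 1` is not in `(ker θ)²` if `p` is odd -/
theorem ee_ne_zero (h2 : p ≠ 2) : ee p ≠ 0 := by
  intro h0
  have hp3 : 3 ≤ p := by
    have := hp.out.two_le
    omega
  have hp1 : (1 : ℝ) < p := by exact_mod_cast hp.out.one_lt
  have h1 : th p (WW (zs_sys (p := p))) = 0 := Subtype.ext h0
  obtain ⟨w, hw⟩ := ker_th _ h1
  have h3 : teichmuller p (el (zs_sys (p := p))) - 1 = xi p * (xi p * w) := by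
    rw [WW_spec, hw]
  have h4 := congrArg (constantCoeff (p := p) (R := TT p)) h3
  rw [map_sub, map_one, map_mul, map_mul, cc_xi] at h4
  have h5 : constantCoeff (teichmuller p (el (zs_sys (p := p)))) = el (zs_sys (p := p)) :=
    teichmuller_coeff_zero p _
  rw [h5] at h4
  have h6 := congrArg (PreTilt.coeff 1) h4
  rw [map_sub, map_one, map_mul, map_mul, el, coeff_mkT, pflat, coeff_mkT] at h6
  obtain ⟨v, hv⟩ := Ideal.Quotient.mk_surjective (PreTilt.coeff 1 (constantCoeff w))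
  rw [← hv, ← map_mul, ← map_mul, ← map_one (Ideal.Quotient.mk (span {(p : 𝓞_ℂ_[p])})), ← map_sub,
    ← sub_eq_zero, ← map_sub, mk_eq_zero_iff] at h6
  -- norms
  have hz : ‖zs p 1 - 1‖ ^ (p - 1) = (p : ℝ)⁻¹ := by
    have h7 := norm_sub_one_pow_totient (p := p) (n := 0) (z := zs p 1) (zt_spec 1)
    rw [zero_add, pow_one, Nat.totient_prime hp.out] at h7
    exact h7
  have hzC : ‖((toO (zs_sys (p := p)) 1 - 1 : 𝓞_ℂ_[p]) : ℂ_[p])‖ = ‖zs p 1 - 1‖ := by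
    change ‖((zs p 1 : PadicAlgCl p) : ℂ_[p]) - ((1 : PadicAlgCl p) : ℂ_[p])‖ = _
    rw [norm_coe_sub]
  have hq : ‖(pseq p 1 : ℂ_[p])‖ ^ p = (p : ℝ)⁻¹ := by
    have h7 := norm_pseq_pow (p := p) 1
    rwa [pow_one, norm_p] at h7
  have hle : ‖zs p 1 - 1‖ ≤ max (p : ℝ)⁻¹ (‖(pseq p 1 : ℂ_[p])‖ ^ 2) := by
    rw [← hzC]
    have e : ((toO (zs_sys (p := p)) 1 - 1 : 𝓞_ℂ_[p]) : ℂ_[p]) =
        ((toO (zs_sys (p := p)) 1 - 1 - pseq p 1 * (pseq p 1 * v) : 𝓞_ℂ_[p]) : ℂ_[p]) +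
        (pseq p 1 : ℂ_[p]) * ((pseq p 1 : ℂ_[p]) * (v : ℂ_[p])) := by
      push_cast
      ring
    rw [e]
    refine (IsUltrametricDist.norm_add_le_max _ _).trans (max_le_max ?_ ?_)
    · rw [← norm_p]
      exact h6
    · rw [norm_mul, norm_mul, sq, ← mul_assoc]
      exact mul_le_of_le_one_right (mul_nonneg (norm_nonneg _) (norm_nonneg _)) (norm_int_le p v)
  have hpinv : (p : ℝ)⁻¹ < 1 := inv_lt_one_of_one_lt₀ hp1
  have hpinv0 : 0 < (p : ℝ)⁻¹ := by positivity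
  rcases le_max_iff.1 hle with h8 | h8
  · have h9 : ‖zs p 1 - 1‖ ^ (p - 1) ≤ ((p : ℝ)⁻¹) ^ (p - 1) :=
      pow_le_pow_left₀ (norm_nonneg _) h8 _
    rw [hz] at h9
    have h10 : ((p : ℝ)⁻¹) ^ (p - 1) < ((p : ℝ)⁻¹) ^ 1 :=
      pow_lt_pow_right_of_lt_one₀ hpinv0 hpinv (by omega)
    rw [pow_one] at h10
    exact absurd h9 (not_le.2 h10)
  · have h9 : ‖zs p 1 - 1‖ ^ ((p - 1) * p) ≤ (‖(pseq p 1 : ℂ_[p])‖ ^ 2) ^ ((p - 1) * p) :=
      pow_le_pow_left₀ (norm_nonneg _) h8 _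
    rw [pow_mul, hz, ← pow_mul, show 2 * ((p - 1) * p) = p * (2 * (p - 1)) by ring, pow_mul,
      hq] at h9
    have h10 : ((p : ℝ)⁻¹) ^ (2 * (p - 1)) < ((p : ℝ)⁻¹) ^ p :=
      pow_lt_pow_right_of_lt_one₀ hpinv0 hpinv (by omega)
    exact absurd h9 (not_le.2 h10)

theorem vth_ug_mul (g : GQp p) : vth p (ug g) * cpMap p g (ee p) =
    algebraMap ℚ_[p] ℂ_[p] ((chi p g : ℤ_[p]) : ℚ_[p]) * ee p := by
  rw [ee, ← del_gal, del_gal_sys]

/-- A nonzero eigenvector in `B_dR` gives a nonzero eigenvector in `ℂ_p`, up to a Tate twist. -/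
theorem exists_vec_twist (h2 : p ≠ 2) {x : BD p} (hx : x ≠ 0) (c : GQp p → ℚ_[p])
    (h : ∀ g, bdrMap p (intMap p g) x = algebraMap ℚ_[p] (BD p) (c g) * x) :
    ∃ (c₁ : ℂ_[p]) (j : ℤ), c₁ ≠ 0 ∧ ∀ g, cpMap p g c₁ =
      algebraMap ℚ_[p] ℂ_[p] (c g * ((chi p g : ℤ_[p]) : ℚ_[p]) ^ j) * c₁ := by
  obtain ⟨c₀, k, m, hc₀, hc⟩ := exists_vec hx c h
  have he := ee_ne_zero (p := p) h2
  refine ⟨c₀ * ee p ^ ((m : ℤ) - k), (m : ℤ) - k, mul_ne_zero hc₀ (zpow_ne_zero _ he), fun g => ?_⟩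
  have hge : cpMap p g (ee p) ≠ 0 := by
    intro h0
    exact he ((cpMap p g).injective (by rw [h0, map_zero]))
  have hchi : algebraMap ℚ_[p] ℂ_[p] ((chi p g : ℤ_[p]) : ℚ_[p]) ≠ 0 := by
    rw [Ne, map_eq_zero]
    intro h0
    have h1 : ((chi p g : ℤ_[p])) = 0 := Subtype.ext h0
    exact (chi p g).ne_zero h1
  have h3 := vth_ug_mul (p := p) g
  have hu : vth p (ug g) ≠ 0 := by
    intro h0
    rw [h0, zero_mul] at h3
    exact (mul_ne_zero hchi he) h3.symm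
  set X := algebraMap ℚ_[p] ℂ_[p] ((chi p g : ℤ_[p]) : ℚ_[p]) with hX
  set U := vth p (ug g) with hU
  have h4 : cpMap p g c₀ = algebraMap ℚ_[p] ℂ_[p] (c g) * U ^ ((m : ℤ) - k) * c₀ := by
    have h5 : U ^ k * cpMap p g c₀ = algebraMap ℚ_[p] ℂ_[p] (c g) * U ^ m * c₀ := hc g
    have h6 : U ^ k ≠ 0 := pow_ne_zero _ hu
    apply mul_left_cancel₀ h6
    rw [h5, zpow_sub₀ hu, zpow_natCast, zpow_natCast]
    field_simp
  have h5 : U ^ ((m : ℤ) - k) * cpMap p g (ee p) ^ ((m : ℤ) - k) = X ^ ((m : ℤ) - k) *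
      ee p ^ ((m : ℤ) - k) := by
    rw [← mul_zpow, ← mul_zpow, h3]
  rw [map_mul, map_zpow₀, h4, map_mul, map_zpow₀]
  calc algebraMap ℚ_[p] ℂ_[p] (c g) * U ^ ((m : ℤ) - k) * c₀ * cpMap p g (ee p) ^ ((m : ℤ) - k) =
      algebraMap ℚ_[p] ℂ_[p] (c g) * c₀ * (U ^ ((m : ℤ) - k) *
        cpMap p g (ee p) ^ ((m : ℤ) - k)) := by ring
    _ = _ := by rw [h5]; ring

end Pool.Agent.Q21.FM
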