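import Pool.Agent.W292.FM.Scalars
import Pool.Agent.W292.FM.Galois

/-!
Fontaine's ring `B_dR` of `ℚ_l` with its Galois action.
-/

set_option autoImplicit false

namespace Pool.Agent.Q21.FM

open Pool.Agent.W292.FM

universe u

/-- The ring structure of Mathlib's `BDeRham R p`. -/
noncomputable abbrev bdRing (R : Type u) [CommRing R] (p : ℕ) [Fact p.Prime]
    [Fact (¬ IsUnit (p : R))] [IsAdicComplete (Ideal.span {(p : R)}) R] :
    CommRing (Localization (genSub R p)) := inferInstance

/-- The `ℚ_p`-algebra structure of Mathlib's `BDeRham R p`. -/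
noncomputable abbrev bdAlgebra (R : Type u) [CommRing R] (p : ℕ) [Fact p.Prime]
    [Fact (¬ IsUnit (p : R))] [IsAdicComplete (Ideal.span {(p : R)}) R] :
    Algebra ℚ_[p] (Localization (genSub R p)) := inferInstance

/-- Fontaine's ring `B_dR` of `ℚ_l`: Mathlib's `BDeRham` of the ring of integers of `ℂ_l`. -/
def BdR (l : ℕ) [Fact l.Prime] : Type := BDeRham 𝓞_ℂ_[l] l

variable (l : ℕ) [hl : Fact l.Prime]

noncomputable instance BdR.instCommRing : CommRing (BdR l) := bdRing 𝓞_ℂ_[l] l

/-- The `ℚ_l`-algebra structure of `B_dR`. -/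
noncomputable instance BdR.instAlgebra : Algebra ℚ_[l] (BdR l) := bdAlgebra 𝓞_ℂ_[l] l

/-- The action of an element of `Gal(ℚ̄_l/ℚ_l)` on `B_dR`. -/
noncomputable def BdR.act (g : Gal(PadicAlgCl l/ℚ_[l])) : BdR l →+* BdR l :=
  bdrMap l (intMap l g)

end Pool.Agent.Q21.FM
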