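import Mathlib

/-!
The homomorphism `u ↦ ⟨u⟩^{1/2}` of `ℤ_p^×`.
-/

set_option autoImplicit false
set_option linter.unusedSectionVars false

namespace Pool.Agent.Q21.FM

open Polynomial Finset

variable {p : ℕ} [hp : Fact p.Prime]

theorem norm_sum_pow_eq_one {w : ℤ_[p]} (hw : ‖w - 1‖ < 1) {n : ℕ} (hn : Nat.Coprime p n) :
    ‖∑ i ∈ range n, w ^ i‖ = 1 := by
  have h1 : ‖(n : ℤ_[p])‖ = 1 := PadicInt.norm_natCast_eq_one_iff.2 hn
  have h2 : ‖∑ i ∈ range n, w ^ i - n‖ < 1 := by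
    have e : ∑ i ∈ range n, w ^ i - (n : ℤ_[p]) = ∑ i ∈ range n, (w ^ i - 1) := by
      rw [sum_sub_distrib]; simp
    rw [e]
    have h3 : ∀ i ∈ range n, w - 1 ∣ w ^ i - 1 := fun i _ => sub_one_dvd_pow_sub_one w i
    obtain ⟨y, hy⟩ := dvd_sum h3
    rw [hy, norm_mul]
    exact lt_of_le_of_lt (mul_le_of_le_one_right (norm_nonneg _) (PadicInt.norm_le_one y)) hw
  have e : ∑ i ∈ range n, w ^ i = (n : ℤ_[p]) + (∑ i ∈ range n, w ^ i - n) := by ring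
  rw [e, IsUltrametricDist.norm_add_eq_max_of_norm_ne_norm (by rw [h1]; exact h2.ne'), h1,
    max_eq_left h2.le]

theorem norm_pow_sub_one {w : ℤ_[p]} (hw : ‖w - 1‖ < 1) {n : ℕ} (hn : Nat.Coprime p n) :
    ‖w ^ n - 1‖ = ‖w - 1‖ := by
  rw [← geom_sum_mul, norm_mul, norm_sum_pow_eq_one hw hn, one_mul]

theorem exists_root_one {v : ℤ_[p]} (hv : ‖v - 1‖ < 1) {n : ℕ} (hn : Nat.Coprime p n) :
    ∃ w : ℤ_[p], w ^ n = v ∧ ‖w - 1‖ < 1 := by
  have hn0 : n ≠ 0 := by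
    rintro rfl
    rw [Nat.coprime_zero_right] at hn
    exact hp.out.ne_one hn
  have h1 : ‖(n : ℤ_[p])‖ = 1 := PadicInt.norm_natCast_eq_one_iff.2 hn
  have hd : (derivative (X ^ n - C v : ℤ_[p][X])).eval 1 = n := by
    rw [derivative_sub, derivative_X_pow, derivative_C]
    simp
  obtain ⟨z, hz, hz1, _⟩ := hensels_lemma (F := (X ^ n - C v : ℤ_[p][X])) (a := (1 : ℤ_[p])) (by
    simp only [coe_aeval_eq_eval, hd, h1, one_pow]
    simp only [eval_sub, eval_pow, eval_X, one_pow, eval_C]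
    rw [norm_sub_rev]
    exact hv)
  simp only [coe_aeval_eq_eval, hd, h1] at hz hz1
  simp only [eval_sub, eval_pow, eval_X, eval_C] at hz
  exact ⟨z, sub_eq_zero.1 hz, hz1⟩

theorem root_unique {w w' : ℤ_[p]} {n : ℕ} (hn : Nat.Coprime p n) (hw : ‖w - 1‖ < 1)
    (hw' : ‖w' - 1‖ < 1) (h : w ^ n = w' ^ n) : w = w' := by
  have hu : IsUnit w' := by
    rw [PadicInt.isUnit_iff]
    have e : w' = 1 + (w' - 1) := by ring
    rw [e, IsUltrametricDist.norm_add_eq_max_of_norm_ne_norm (by rw [norm_one]; exact hw'.ne'),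
      norm_one, max_eq_left hw'.le]
  obtain ⟨u, rfl⟩ := hu
  have hun : ‖((u⁻¹ : ℤ_[p]ˣ) : ℤ_[p])‖ = 1 := PadicInt.norm_units _
  have h1 : ‖w * ((u⁻¹ : ℤ_[p]ˣ) : ℤ_[p]) - 1‖ < 1 := by
    have e : w * ((u⁻¹ : ℤ_[p]ˣ) : ℤ_[p]) - 1 = ((w - 1) + -((u : ℤ_[p]) - 1)) *
        ((u⁻¹ : ℤ_[p]ˣ) : ℤ_[p]) := by
      have : (u : ℤ_[p]) * ((u⁻¹ : ℤ_[p]ˣ) : ℤ_[p]) = 1 := Units.mul_inv u
      linear_combination this
    rw [e, norm_mul, hun, mul_one]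
    refine lt_of_le_of_lt (IsUltrametricDist.norm_add_le_max _ _) (max_lt hw ?_)
    rw [norm_neg]; exact hw'
  have h2 := norm_pow_sub_one h1 hn
  have h3 : (w * ((u⁻¹ : ℤ_[p]ˣ) : ℤ_[p])) ^ n = 1 := by
    rw [mul_pow, h, ← mul_pow, Units.mul_inv, one_pow]
  rw [h3, sub_self, norm_zero] at h2
  have h4 : w * ((u⁻¹ : ℤ_[p]ˣ) : ℤ_[p]) = 1 := sub_eq_zero.1 (norm_eq_zero.1 h2.symm)
  calc w = (w * ((u⁻¹ : ℤ_[p]ˣ) : ℤ_[p])) * u := by rw [mul_assoc, Units.inv_mul, mul_one]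
    _ = u := by rw [h4, one_mul]

theorem norm_unit_pow_sub_one (u : ℤ_[p]ˣ) : ‖((u : ℤ_[p]) ^ (p - 1)) - 1‖ < 1 := by
  rw [← PadicInt.mem_nonunits, ← IsLocalRing.mem_maximalIdeal, ← PadicInt.ker_toZMod,
    RingHom.mem_ker, map_sub, map_pow, map_one, ZMod.pow_card_sub_one_eq_one, sub_self]
  exact (u.isUnit.map PadicInt.toZMod).ne_zero

theorem coprime_two_mul (h2 : p ≠ 2) : Nat.Coprime p (2 * (p - 1)) := by
  have h3 : 2 < p := lt_of_le_of_ne hp.out.two_le (Ne.symm h2)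
  refine Nat.Coprime.mul_right ?_ ?_
  · rw [Nat.Prime.coprime_iff_not_dvd hp.out]
    intro h
    exact absurd (Nat.le_of_dvd (by norm_num) h) (by omega)
  · rw [Nat.Prime.coprime_iff_not_dvd hp.out]
    intro h
    exact absurd (Nat.le_of_dvd (by omega) h) (by omega)

theorem exists_half (h2 : p ≠ 2) (u : ℤ_[p]ˣ) :
    ∃ w : ℤ_[p]ˣ, w ^ (2 * (p - 1)) = u ^ (p - 1) ∧ ‖(w : ℤ_[p]) - 1‖ < 1 := by
  obtain ⟨w, hw, hw1⟩ := exists_root_one (norm_unit_pow_sub_one u) (coprime_two_mul h2)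
  have hu : IsUnit w := by
    rw [PadicInt.isUnit_iff]
    have e : w = 1 + (w - 1) := by ring
    rw [e, IsUltrametricDist.norm_add_eq_max_of_norm_ne_norm (by rw [norm_one]; exact hw1.ne'),
      norm_one, max_eq_left hw1.le]
  obtain ⟨w, rfl⟩ := hu
  refine ⟨w, ?_, hw1⟩
  apply Units.ext
  push_cast
  exact hw

theorem norm_unit_mul_sub_one {a b : ℤ_[p]ˣ} (ha : ‖(a : ℤ_[p]) - 1‖ < 1)
    (hb : ‖(b : ℤ_[p]) - 1‖ < 1) : ‖((a * b : ℤ_[p]ˣ) : ℤ_[p]) - 1‖ < 1 := by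
  have e : ((a * b : ℤ_[p]ˣ) : ℤ_[p]) - 1 = (a : ℤ_[p]) * ((b : ℤ_[p]) - 1) +
      ((a : ℤ_[p]) - 1) := by push_cast; ring
  rw [e]
  refine lt_of_le_of_lt (IsUltrametricDist.norm_add_le_max _ _) (max_lt ?_ ha)
  rw [norm_mul, PadicInt.norm_units, one_mul]
  exact hb

theorem half_unique (h2 : p ≠ 2) {a b : ℤ_[p]ˣ} (ha : ‖(a : ℤ_[p]) - 1‖ < 1)
    (hb : ‖(b : ℤ_[p]) - 1‖ < 1) (h : a ^ (2 * (p - 1)) = b ^ (2 * (p - 1))) : a = b := by
  apply Units.ext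
  refine root_unique (coprime_two_mul h2) ha hb ?_
  have := congrArg (Units.val) h
  push_cast at this
  exact this

/-- `u ↦ ⟨u⟩^{1/2}` on `ℤ_p^×`. -/
noncomputable def half (h2 : p ≠ 2) : ℤ_[p]ˣ →* ℤ_[p]ˣ where
  toFun u := (exists_half h2 u).choose
  map_one' := by
    refine half_unique h2 (exists_half h2 1).choose_spec.2 (by simp) ?_
    rw [(exists_half h2 1).choose_spec.1]; simp
  map_mul' u v := by
    refine half_unique h2 (exists_half h2 (u * v)).choose_spec.2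
      (norm_unit_mul_sub_one (exists_half h2 u).choose_spec.2 (exists_half h2 v).choose_spec.2) ?_
    rw [(exists_half h2 (u * v)).choose_spec.1, mul_pow, mul_pow,
      (exists_half h2 u).choose_spec.1, (exists_half h2 v).choose_spec.1]

theorem half_pow (h2 : p ≠ 2) (u : ℤ_[p]ˣ) : half h2 u ^ (2 * (p - 1)) = u ^ (p - 1) :=
  (exists_half h2 u).choose_spec.1

theorem half_norm (h2 : p ≠ 2) (u : ℤ_[p]ˣ) : ‖(half h2 u : ℤ_[p]) - 1‖ < 1 :=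
  (exists_half h2 u).choose_spec.2

theorem half_norm_le (h2 : p ≠ 2) (u : ℤ_[p]ˣ) :
    ‖(half h2 u : ℤ_[p]) - 1‖ ≤ ‖(u : ℤ_[p]) - 1‖ := by
  rw [← norm_pow_sub_one (half_norm h2 u) (coprime_two_mul h2)]
  have h := congrArg Units.val (half_pow h2 u)
  push_cast at h
  rw [h]
  obtain ⟨y, hy⟩ := sub_one_dvd_pow_sub_one (u : ℤ_[p]) (p - 1)
  rw [hy, norm_mul]
  exact mul_le_of_le_one_right (norm_nonneg _) (PadicInt.norm_le_one y)

theorem half_continuous (h2 : p ≠ 2) : Continuous (half (p := p) h2) := by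
  apply continuous_of_continuousAt_one
  have h3 : Filter.Tendsto (fun u : ℤ_[p]ˣ => ‖(u : ℤ_[p]) - 1‖) (nhds 1) (nhds 0) := by
    have : Continuous (fun u : ℤ_[p]ˣ => ‖(u : ℤ_[p]) - 1‖) := by
      exact (Units.continuous_val.sub continuous_const).norm
    have h := this.tendsto 1
    simpa using h
  have h4 : Filter.Tendsto (fun u : ℤ_[p]ˣ => ((half h2 u : ℤ_[p]ˣ) : ℤ_[p])) (nhds 1)
      (nhds 1) := by
    rw [tendsto_iff_norm_sub_tendsto_zero]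
    exact squeeze_zero (fun _ => norm_nonneg _) (fun u => half_norm_le h2 u) h3
  rw [ContinuousAt, map_one]
  have h5 := (Units.isOpenEmbedding_val (R := ℤ_[p])).isInducing.nhds_eq_comap 1
  rw [show (nhds (1 : ℤ_[p]ˣ)) = Filter.comap Units.val (nhds ((1 : ℤ_[p]ˣ) : ℤ_[p])) from h5]
  rw [Filter.tendsto_comap_iff, ← h5]
  exact h4

end Pool.Agent.Q21.FM
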