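import Mathlib
import Pool.Agent.W292.FM.Galois
import Pool.Agent.Q21.FM.Root

/-!
The character `⟨χ⟩^{-1/2}` of the absolute Galois group of `ℚ`.
-/

set_option autoImplicit false
set_option linter.unusedSectionVars false

namespace Pool.Agent.Q21.FM

open Pool.Agent.W292.FM Finset NumberField Polynomial

/-- The absolute Galois group of `ℚ`. -/
abbrev GQ : Type := Gal(AlgebraicClosure ℚ/ℚ)

/-- The ring of all algebraic integers. -/
abbrev ZZ : Type := 𝓞 (AlgebraicClosure ℚ)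

variable (l : ℕ) [hl : Fact l.Prime]

/-- The `l`-adic cyclotomic character of `Gal(ℚ̄/ℚ)`. -/
noncomputable def chiQ : GQ →* ℤ_[l]ˣ :=
  (cyclotomicCharacter (AlgebraicClosure ℚ) l).comp
    (MulSemiringAction.toRingAut GQ (AlgebraicClosure ℚ))

theorem chiQ_continuous : Continuous (chiQ l) :=
  cyclotomicCharacter.continuous l ℚ (AlgebraicClosure ℚ)

instance hasRootsQ (i : ℕ) : HasEnoughRootsOfUnity (AlgebraicClosure ℚ) (l ^ i) := by
  have : NeZero (l ^ i : ℕ) := ⟨pow_ne_zero _ hl.out.ne_zero⟩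
  have : NeZero ((l ^ i : ℕ) : AlgebraicClosure ℚ) := ⟨by
    rw [Nat.cast_ne_zero]
    exact pow_ne_zero _ hl.out.ne_zero⟩
  exact IsSepClosed.hasEnoughRootsOfUnity (AlgebraicClosure ℚ) (l ^ i)

variable {l}

theorem chiQ_spec (g : GQ) {n : ℕ} {t : AlgebraicClosure ℚ} (ht : t ^ l ^ n = 1) :
    g t = t ^ ((chiQ l g).val.toZModPow n).val :=
  cyclotomicCharacter.spec l (MulSemiringAction.toRingAut GQ (AlgebraicClosure ℚ) g) t ht

/-- uniqueness of the exponent -/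
theorem chiQ_unique (g : GQ) (x : ℤ_[l]) (h : ∀ (n : ℕ) (t : AlgebraicClosure ℚ), t ^ l ^ n = 1 →
    g t = t ^ (x.toZModPow n).val) : (chiQ l g : ℤ_[l]) = x := by
  refine PadicInt.ext_of_toZModPow.mp fun n => ?_
  obtain ⟨ζ, hζ⟩ := HasEnoughRootsOfUnity.exists_primitiveRoot (AlgebraicClosure ℚ) (l ^ n)
  have : NeZero (l ^ n : ℕ) := ⟨pow_ne_zero _ hl.out.ne_zero⟩
  have h1 := chiQ_spec g hζ.pow_eq_one
  rw [h n ζ hζ.pow_eq_one] at h1
  have h2 := hζ.pow_inj (ZMod.val_lt _) (ZMod.val_lt _) h1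
  exact (ZMod.val_injective _ h2).symm

/-- A root of unity as an algebraic integer. -/
theorem exists_int {n : ℕ} {t : AlgebraicClosure ℚ} (ht : t ^ l ^ n = 1) :
    ∃ z : ZZ, (z : AlgebraicClosure ℚ) = t ∧ z ^ l ^ n = 1 := by
  have h1 : IsIntegral ℤ t :=
    IsIntegral.of_pow (pow_pos hl.out.pos n) (by rw [ht]; exact isIntegral_one)
  obtain ⟨z, hz⟩ : ∃ z : ZZ, (z : AlgebraicClosure ℚ) = t := ⟨⟨t, h1⟩, rfl⟩
  refine ⟨z, hz, ?_⟩
  apply RingOfIntegers.ext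
  rw [RingOfIntegers.coe_eq_algebraMap, map_pow, ← RingOfIntegers.coe_eq_algebraMap, hz, ht,
    RingOfIntegers.coe_eq_algebraMap, map_one]

theorem coe_smul_int (g : GQ) (z : ZZ) : ((g • z : ZZ) : AlgebraicClosure ℚ) =
    g (z : AlgebraicClosure ℚ) := by
  have := algebraMap.coe_smul' g z (AlgebraicClosure ℚ)
  exact this

/-- `l` is not in a prime above `q`. -/
theorem natCast_notMem {Q : Ideal ZZ} [hQ : Q.IsPrime] {q : ℕ} (hq : q.Prime) (hql : q ≠ l)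
    (h : (q : ZZ) ∈ Q) (n : ℕ) : ((l ^ n : ℕ) : ZZ) ∉ Q := by
  intro h1
  have hc : Nat.Coprime q (l ^ n) := Nat.Coprime.pow_right _ ((Nat.coprime_primes hq hl.out).2 hql)
  have h2 : IsCoprime (q : ℤ) ((l ^ n : ℕ) : ℤ) := Nat.isCoprime_iff_coprime.2 hc
  obtain ⟨a, b, hab⟩ := h2
  apply hQ.ne_top
  rw [Ideal.eq_top_iff_one]
  have h3 : ((a * q + b * ((l ^ n : ℕ) : ℤ) : ℤ) : ZZ) = 1 := by
    rw [hab]; simp
  rw [← h3]
  push_cast
  push_cast at h1
  exact add_mem (Ideal.mul_mem_left _ _ h) (Ideal.mul_mem_left _ _ h1)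

theorem chiQ_inertia {Q : Ideal ZZ} [hQ : Q.IsPrime] {q : ℕ} (hq : q.Prime) (hql : q ≠ l)
    (h : (q : ZZ) ∈ Q) {g : GQ} (hg : g ∈ Q.inertia GQ) : chiQ l g = 1 := by
  apply Units.ext
  rw [chiQ_unique g ((1 : ℤ_[l]ˣ) : ℤ_[l])]
  intro n t ht
  obtain ⟨z, rfl, hz⟩ := exists_int ht
  have h0 : l ^ n ≠ 0 := pow_ne_zero _ hl.out.ne_zero
  have h1 : g • z - z ∈ Q := hg z
  have hz1 : z ^ (l ^ n - 1) * z = 1 := by
    rw [← pow_succ, Nat.sub_add_cancel (Nat.pos_of_ne_zero h0), hz]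
  set ξ : ZZ := z ^ (l ^ n - 1) * (g • z) with hξ
  have h2 : ξ - 1 ∈ Q := by
    have e : ξ - 1 = z ^ (l ^ n - 1) * (g • z - z) := by
      rw [mul_sub, hz1]
    rw [e]
    exact Ideal.mul_mem_left _ _ h1
  have hgz : (g • z) ^ l ^ n = 1 := by rw [← smul_pow', hz, smul_one]
  have hξ1 : ξ ^ l ^ n = 1 := by
    rw [hξ, mul_pow, hgz, mul_one, ← pow_mul, mul_comm, pow_mul, hz, one_pow]
  have h3 : ξ = 1 := by
    by_contra hne
    have h4 : (∑ i ∈ range (l ^ n), ξ ^ i) * (ξ - 1) = 0 := by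
      rw [geom_sum_mul, hξ1, sub_self]
    have h5 : ∑ i ∈ range (l ^ n), ξ ^ i = 0 :=
      (mul_eq_zero.1 h4).resolve_right (sub_ne_zero.2 hne)
    refine natCast_notMem hq hql h n ?_
    have e : ((l ^ n : ℕ) : ZZ) = - ∑ i ∈ range (l ^ n), (ξ ^ i - 1) := by
      rw [sum_sub_distrib, h5]; simp
    rw [e]
    refine neg_mem (sum_mem fun i _ => ?_)
    obtain ⟨y, hy⟩ := sub_one_dvd_pow_sub_one ξ i
    rw [hy]
    exact Ideal.mul_mem_right _ _ h2
  have h4 : g • z = z := by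
    have : z * ξ = z := by rw [h3, mul_one]
    calc g • z = (z ^ (l ^ n - 1) * z) * (g • z) := by rw [hz1, one_mul]
      _ = z * ξ := by rw [hξ]; ring
      _ = z := this
  rw [← coe_smul_int, h4, Units.val_one, map_one]
  rcases n with _ | n
  · rw [pow_zero, pow_one] at hz
    subst hz
    simp
  · have : Fact (1 < l ^ (n + 1)) := ⟨Nat.one_lt_pow (by omega) hl.out.one_lt⟩
    rw [ZMod.val_one, pow_one]

theorem under_eq {Q : Ideal ZZ} [hQ : Q.IsPrime] {q : ℕ} (hq : q.Prime)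
    (h : (q : ZZ) ∈ Q) : Q.under ℤ = Ideal.span {(q : ℤ)} := by
  have h1 : Ideal.span {(q : ℤ)} ≤ Q.under ℤ := by
    rw [Ideal.span_singleton_le_iff_mem, Ideal.under_def, Ideal.mem_comap]
    simpa using h
  have h2 : (Ideal.span {(q : ℤ)}).IsMaximal :=
    PrincipalIdealRing.isMaximal_of_irreducible (Nat.prime_iff_prime_int.1 hq).irreducible
  exact (h2.eq_of_le (Ideal.IsPrime.ne_top inferInstance) h1).symm

theorem chiQ_frob {Q : Ideal ZZ} [hQ : Q.IsPrime] {q : ℕ} (hq : q.Prime) (hql : q ≠ l)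
    (h : (q : ZZ) ∈ Q) {g : GQ} (hg : IsArithFrobAt ℤ g Q) : (chiQ l g : ℤ_[l]) = q := by
  refine chiQ_unique g _ fun n t ht => ?_
  obtain ⟨z, rfl, hz⟩ := exists_int ht
  have h1 := hg.apply_of_pow_eq_one hz (natCast_notMem hq hql h n)
  rw [under_eq hq h] at h1
  have h2 : Nat.card (ℤ ⧸ Ideal.span {(q : ℤ)}) = q := by
    rw [Nat.card_congr (Int.quotientSpanNatEquivZMod q).toEquiv, Nat.card_zmod]
  rw [h2] at h1
  have h3 : g • z = z ^ q := h1
  rw [← coe_smul_int, h3, map_natCast, ZMod.val_natCast, RingOfIntegers.coe_eq_algebraMap,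
    map_pow, RingOfIntegers.coe_eq_algebraMap]
  rw [RingOfIntegers.coe_eq_algebraMap] at ht
  conv_lhs => rw [← Nat.mod_add_div q (l ^ n), pow_add, pow_mul, ht, one_pow, mul_one]

end Pool.Agent.Q21.FM
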