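import Pool.Agent.Q21.FM.Tate3
import Pool.Agent.Q21.FM.BdR4
import Pool.Agent.Q21.FM.Root

/-!
The character `⟨χ⟩^{-1/2}` of the Galois group of `ℚ_p` has no nonzero de Rham period.
-/

set_option autoImplicit false
set_option linter.unusedSectionVars false

namespace Pool.Agent.Q21.FM

open Pool.Agent.W292.FM Finset

variable {p : ℕ} [hp : Fact p.Prime]

theorem chi_norm_le {m : ℕ} {γ : GQp p} (h : Fixes m γ) :
    ‖(chi p γ : ℤ_[p]) - 1‖ ≤ (p : ℝ) ^ (-(m : ℤ)) := by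
  rw [PadicInt.norm_le_pow_iff_mem_span_pow, ← PadicInt.ker_toZModPow, RingHom.mem_ker, map_sub,
    map_one, sub_eq_zero]
  have : NeZero (p ^ m) := ⟨pow_ne_zero _ hp.out.ne_zero⟩
  have h1 := chi_spec γ (zt_pow (p := p) m)
  rw [h _ (zt_pow m)] at h1
  have h3 : zt p m ≠ 0 := (zt_spec (p := p) m).ne_zero (pow_ne_zero _ hp.out.ne_zero)
  have h2 : zt p m ^ (((PadicInt.toZModPow m (chi p γ : ℤ_[p])).val : ℤ) - 1) = 1 := by
    rw [zpow_sub₀ h3, zpow_natCast, zpow_one, ← h1, div_self h3]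
  rw [(zt_spec (p := p) m).zpow_eq_one_iff_dvd] at h2
  have h4 := (ZMod.intCast_zmod_eq_zero_iff_dvd _ _).2 h2
  push_cast at h4
  rw [ZMod.natCast_zmod_val, sub_eq_zero] at h4
  exact h4

theorem chi_eq_one {γ : GQp p} (h : ∀ m, Fixes m γ) : chi p γ = 1 := by
  apply Units.ext
  rw [Units.val_one, ← sub_eq_zero, ← norm_eq_zero]
  refine le_antisymm (le_of_forall_pos_le_add fun ε hε => ?_) (norm_nonneg _)
  obtain ⟨m, hm⟩ := exists_pow_lt_of_lt_one hε (y := (p : ℝ)⁻¹)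
    (inv_lt_one_of_one_lt₀ (by exact_mod_cast hp.out.one_lt))
  rw [zero_add]
  refine (chi_norm_le (h m)).trans ?_
  rw [zpow_neg, zpow_natCast, ← inv_pow]
  exact hm.le

theorem exists_fixes (m : ℕ) (hm : m ≠ 0) : ∃ γ : GQp p, Fixes m γ ∧ chi p γ ≠ 1 := by
  obtain ⟨γ, hγ⟩ := exists_gal (zt_spec (p := p) (m + 1)) (x := 1 + p ^ m * 1) (by
    obtain ⟨k, rfl⟩ := Nat.exists_eq_succ_of_ne_zero hm
    rw [Nat.succ_eq_add_one, pow_succ', mul_assoc, Nat.coprime_add_mul_left_left]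
    exact Nat.coprime_one_left p)
  refine ⟨γ, ?_, ?_⟩
  · intro w hw
    obtain ⟨i, rfl⟩ := exists_pow_zt (p := p) (m := m + 1) (w := w)
      (by rw [pow_succ, pow_mul, hw, one_pow])
    rw [map_pow, hγ, ← pow_mul, mul_comm, pow_mul, pow_add, pow_one, mul_one, hw, mul_one]
  · intro h1
    have h2 := chi_spec γ (zt_pow (p := p) (m + 1))
    have : Fact (1 < p ^ (m + 1)) := ⟨Nat.one_lt_pow (by omega) hp.out.one_lt⟩
    rw [hγ, h1, Units.val_one, map_one, ZMod.val_one, pow_one, pow_add, pow_one] at h2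
    have h3 : zt p (m + 1) ≠ 0 := (zt_spec (p := p) (m + 1)).ne_zero (pow_ne_zero _ hp.out.ne_zero)
    have h4 : zt p (m + 1) ^ (p ^ m * 1) = 1 := by
      have := mul_left_cancel₀ h3 (h2.trans (mul_one _).symm)
      exact this
    rw [mul_one] at h4
    have h5 := (zt_spec (p := p) (m + 1)).dvd_of_pow_eq_one _ h4
    rw [Nat.pow_dvd_pow_iff_le_right hp.out.one_lt] at h5
    omega

theorem pow_ne_one_of {u : ℤ_[p]} (hu : u ≠ 1) {N : ℕ} (hN : ‖u - 1‖ < ‖(N : ℤ_[p])‖) :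
    u ^ N ≠ 1 := by
  intro h
  have h1 : (∑ i ∈ range N, u ^ i) * (u - 1) = 0 := by
    rw [geom_sum_mul, h, sub_self]
  rcases mul_eq_zero.1 h1 with h2 | h2
  · have e : (N : ℤ_[p]) = - ∑ i ∈ range N, (u ^ i - 1) := by
      rw [sum_sub_distrib, h2]; simp
    have h3 : ∀ i ∈ range N, u - 1 ∣ u ^ i - 1 := fun i _ => sub_one_dvd_pow_sub_one u i
    obtain ⟨y, hy⟩ := dvd_sum h3
    rw [e, norm_neg, hy, norm_mul] at hN
    exact absurd hN (not_lt.2 (mul_le_of_le_one_right (norm_nonneg _) (PadicInt.norm_le_one y)))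
  · exact hu (sub_eq_zero.1 h2)

theorem no_period (h2 : p ≠ 2) (x : BD p)
    (h : ∀ g : GQp p, bdrMap p (intMap p g) x =
      algebraMap ℚ_[p] (BD p) (((half h2 (chi p g) : ℤ_[p]ˣ) : ℤ_[p]) : ℚ_[p]) * x) : x = 0 := by
  by_contra hx
  obtain ⟨c, j, hc0, hc⟩ := exists_vec_twist h2 hx _ h
  set Ψ : GQp p → ℤ_[p]ˣ := fun g => half h2 (chi p g) * chi p g ^ j with hΨ
  have hΨc : ∀ g, ((half h2 (chi p g) : ℤ_[p]ˣ) : ℚ_[p]) * (((chi p g : ℤ_[p]ˣ) : ℤ_[p]) : ℚ_[p]) ^ j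
      = ((Ψ g : ℤ_[p]) : ℚ_[p]) := by
    intro g
    let F : ℤ_[p]ˣ →* ℚ_[p]ˣ := Units.map (PadicInt.Coe.ringHom (p := p)).toMonoidHom
    have h1 : ∀ u : ℤ_[p]ˣ, ((F u : ℚ_[p]ˣ) : ℚ_[p]) = ((u : ℤ_[p]) : ℚ_[p]) := fun u => rfl
    rw [← h1, ← h1, ← h1, hΨ]
    simp only [map_mul, map_zpow, Units.val_mul, Units.val_zpow_eq_zpow_val]
  have key : ∀ g, Ψ g = 1 → (chi p g) ^ ((p - 1) * (2 * j + 1).natAbs) = 1 := by
    intro g hg
    have h3 : Ψ g ^ (2 * (p - 1)) = 1 := by rw [hg, one_pow]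
    rw [hΨ] at h3
    simp only [mul_pow] at h3
    rw [half_pow] at h3
    have h4 : (chi p g ^ (p - 1)) ^ (2 * j + 1) = 1 := by
      rw [zpow_add, zpow_one, mul_comm, ← h3]
      congr 1
      rw [← zpow_natCast (chi p g ^ j), ← zpow_mul, ← zpow_natCast, ← zpow_mul]
      congr 1
      push_cast
      ring
    rw [pow_mul]
    rcases Int.natAbs_eq (2 * j + 1) with h5 | h5
    · rw [h5, zpow_natCast] at h4
      exact h4
    · rw [h5, zpow_neg, zpow_natCast, inv_eq_one] at h4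
      exact h4
  refine hc0 (tate_vanish c 0 (fun g => ((Ψ g : ℤ_[p]) : ℚ_[p])) ?_ ?_ ?_)
  · intro g _
    rw [hc g, hΨc]
  · intro g hg
    simp only [hΨ]
    rw [chi_eq_one hg]
    simp
  · intro m
    set N : ℕ := (p - 1) * (2 * j + 1).natAbs with hN
    have hN0 : N ≠ 0 := by
      have := hp.out.two_le
      have h6 : (2 * j + 1).natAbs ≠ 0 := by omega
      have h7 : p - 1 ≠ 0 := by omega
      exact mul_ne_zero h7 h6
    have hNn : 0 < ‖(N : ℤ_[p])‖ := norm_pos_iff.2 (by exact_mod_cast hN0)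
    obtain ⟨k, hk⟩ := exists_pow_lt_of_lt_one hNn (y := (p : ℝ)⁻¹)
      (inv_lt_one_of_one_lt₀ (by exact_mod_cast hp.out.one_lt))
    obtain ⟨γ, hγ, hγ1⟩ := exists_fixes (p := p) (m + k + 1) (by omega)
    refine ⟨γ, ?_, ?_⟩
    · intro w hw
      refine hγ w ?_
      rw [show m + k + 1 = m + (k + 1) by ring, pow_add, pow_mul, hw, one_pow]
    · intro h8
      have h9 : Ψ γ = 1 := by
        apply Units.ext
        apply Subtype.ext
        exact h8
      have h10 := key γ h9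
      have h11 : ((chi p γ : ℤ_[p]ˣ) : ℤ_[p]) ^ N = 1 := by
        have := congrArg Units.val h10
        push_cast at this
        exact this
      refine pow_ne_one_of (u := (chi p γ : ℤ_[p])) (fun h12 => hγ1 (Units.ext h12)) ?_ h11
      refine lt_of_le_of_lt (chi_norm_le hγ) (lt_of_le_of_lt ?_ hk)
      rw [zpow_neg, zpow_natCast, ← inv_pow]
      refine pow_le_pow_of_le_one (by positivity) ?_ (by omega)
      exact (inv_lt_one_of_one_lt₀ (by exact_mod_cast hp.out.one_lt)).le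

end Pool.Agent.Q21.FM
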