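import Pool.Agent.W292.FM.Cyclo

/-!
The cyclotomic tower over `ℚ_p`: conjugates of roots of unity, and the trace on `ℚ_p(ζ_{p^m})`.
-/

set_option autoImplicit false
set_option linter.unusedSectionVars false

namespace Pool.Agent.Q21.FM

open Pool.Agent.W292.FM Polynomial Finset

variable (p : ℕ) [hp : Fact p.Prime]

/-- the absolute Galois group of `ℚ_p` -/
abbrev GQp : Type := Gal(PadicAlgCl p/ℚ_[p])

variable {p}

theorem exists_primitive (m : ℕ) : ∃ z : PadicAlgCl p, IsPrimitiveRoot z (p ^ m) := by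
  have : NeZero (p ^ m : ℕ) := ⟨pow_ne_zero _ hp.out.ne_zero⟩
  have : NeZero ((p ^ m : ℕ) : PadicAlgCl p) := ⟨by
    rw [Nat.cast_ne_zero]
    exact pow_ne_zero _ hp.out.ne_zero⟩
  have : HasEnoughRootsOfUnity (PadicAlgCl p) (p ^ m) :=
    IsSepClosed.hasEnoughRootsOfUnity (PadicAlgCl p) (p ^ m)
  exact HasEnoughRootsOfUnity.exists_primitiveRoot _ _

variable (p) in
/-- a primitive `p^m`-th root of unity -/
noncomputable def zt (m : ℕ) : PadicAlgCl p := (exists_primitive (p := p) m).choose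

theorem zt_spec (m : ℕ) : IsPrimitiveRoot (zt p m) (p ^ m) := (exists_primitive (p := p) m).choose_spec

/-- a nonzero polynomial of degree `< φ(p^(m+1))` does not vanish at `ζ - 1` -/
theorem aeval_ne_zero {z : PadicAlgCl p} {n : ℕ} (hz : IsPrimitiveRoot z (p ^ (n + 1)))
    {P : ℚ_[p][X]} (hP : P ≠ 0) (hdeg : P.natDegree < Nat.totient (p ^ (n + 1))) :
    aeval (z - 1) P ≠ 0 := by
  intro h0
  have hz1 : z - 1 ≠ 0 := by
    intro h1
    have h2 := norm_sub_one_pow_totient hz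
    rw [h1, norm_zero, zero_pow (Nat.totient_pos.2 (pow_pos hp.out.pos _)).ne'] at h2
    exact (inv_pos.2 (by exact_mod_cast hp.out.pos : (0 : ℝ) < p)).ne h2
  have h1 : ∀ i < Nat.totient (p ^ (n + 1)), P.coeff i = 0 := by
    intro i hi
    have h2 := norm_term_le hz P.coeff hi
    have h3 : ∑ j ∈ range (Nat.totient (p ^ (n + 1))),
        algebraMap ℚ_[p] (PadicAlgCl p) (P.coeff j) * (z - 1) ^ j = 0 := by
      rw [← h0, aeval_eq_sum_range' hdeg]
      exact sum_congr rfl fun j _ => by rw [Algebra.smul_def]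
    rw [h3, norm_zero] at h2
    have h4 := norm_le_zero_iff.1 h2
    rcases mul_eq_zero.1 h4 with h5 | h5
    · exact (algebraMap ℚ_[p] (PadicAlgCl p)).injective (by rw [h5, map_zero])
    · exact absurd (eq_zero_of_pow_eq_zero h5) hz1
  apply hP
  ext i
  rw [coeff_zero]
  by_cases hi : i < Nat.totient (p ^ (n + 1))
  · exact h1 i hi
  · exact coeff_eq_zero_of_natDegree_lt (by omega)

/-- `ζ` and `ζ^x` are conjugate over `ℚ_p` for `x` prime to `p`. -/
theorem exists_gal {z : PadicAlgCl p} {n : ℕ} (hz : IsPrimitiveRoot z (p ^ (n + 1))) {x : ℕ}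
    (hx : Nat.Coprime x p) : ∃ σ : GQp p, σ z = z ^ x := by
  have hpn : p ^ (n + 1) ≠ 0 := pow_ne_zero _ hp.out.ne_zero
  have hzx : IsPrimitiveRoot (z ^ x) (p ^ (n + 1)) :=
    hz.pow_of_coprime x (Nat.Coprime.pow_right _ hx)
  have key : ∀ w : PadicAlgCl p, IsPrimitiveRoot w (p ^ (n + 1)) →
      minpoly ℚ_[p] w = cyclotomic (p ^ (n + 1)) ℚ_[p] := by
    intro w hw
    have hint : IsIntegral ℚ_[p] w := Algebra.IsIntegral.isIntegral w
    have hdvd : minpoly ℚ_[p] w ∣ cyclotomic (p ^ (n + 1)) ℚ_[p] := by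
      apply minpoly.dvd
      rw [aeval_def, eval₂_eq_eval_map, map_cyclotomic]
      exact (isRoot_cyclotomic_iff (n := p ^ (n + 1))).2 hw
    have hle : Nat.totient (p ^ (n + 1)) ≤ (minpoly ℚ_[p] w).natDegree := by
      by_contra hlt
      push Not at hlt
      have hP : (minpoly ℚ_[p] w).comp (X + 1) ≠ 0 := by
        intro h0
        have h1 : ((minpoly ℚ_[p] w).comp (X + 1)).comp (X - 1) = 0 := by rw [h0, zero_comp]
        rw [comp_assoc] at h1
        simp at h1
        exact minpoly.ne_zero hint h1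
      have hdeg : ((minpoly ℚ_[p] w).comp (X + 1)).natDegree < Nat.totient (p ^ (n + 1)) := by
        have h1 : (X + 1 : ℚ_[p][X]).natDegree = 1 := natDegree_X_add_C 1
        rw [natDegree_comp, h1, mul_one]
        exact hlt
      refine aeval_ne_zero hw hP hdeg ?_
      rw [aeval_comp]
      simp [minpoly.aeval]
    refine (eq_of_monic_of_dvd_of_natDegree_le (minpoly.monic hint) (cyclotomic.monic _ _)
      hdvd ?_).symm
    rw [natDegree_cyclotomic]
    exact hle
  have hc : IsConjRoot ℚ_[p] (z ^ x) z := by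
    rw [IsConjRoot, key _ hzx, key _ hz]
  exact (isConjRoot_iff_exists_algEquiv (K := ℚ_[p]) (L := PadicAlgCl p)).1 hc

/-- elements of `ℚ_p(ζ)` are polynomials in `ζ - 1` of degree `< φ(p^(n+1))` -/
theorem exists_repr {z : PadicAlgCl p} {n : ℕ} (hz : IsPrimitiveRoot z (p ^ (n + 1)))
    {y : PadicAlgCl p} (hy : y ∈ IntermediateField.adjoin ℚ_[p] {z}) : ∃ b : ℕ → ℚ_[p],
      y = ∑ i ∈ range (Nat.totient (p ^ (n + 1))), algebraMap ℚ_[p] (PadicAlgCl p) (b i) *
        (z - 1) ^ i := by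
  have hint : IsIntegral ℚ_[p] z := Algebra.IsIntegral.isIntegral z
  rw [← IntermediateField.mem_toSubalgebra,
    IntermediateField.adjoin_simple_toSubalgebra_of_isAlgebraic hint.isAlgebraic,
    Algebra.adjoin_singleton_eq_range_aeval] at hy
  obtain ⟨P, hP⟩ := hy
  set Q : ℚ_[p][X] := (cyclotomic (p ^ (n + 1)) ℚ_[p]).comp (X + 1) with hQ
  have hXdeg : (X + 1 : ℚ_[p][X]).natDegree = 1 := natDegree_X_add_C 1
  have hQm : Q.Monic := (cyclotomic.monic _ _).comp (monic_X_add_C 1) (by rw [hXdeg]; norm_num)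
  have hQdeg : Q.natDegree = Nat.totient (p ^ (n + 1)) := by
    rw [hQ, natDegree_comp, hXdeg, mul_one, natDegree_cyclotomic]
  have hQ0 : aeval (z - 1) Q = 0 := by
    rw [hQ, aeval_comp]
    simp only [map_add, aeval_X, map_one, sub_add_cancel]
    have : NeZero (((p ^ (n + 1) : ℕ)) : PadicAlgCl p) := ⟨by
      rw [Nat.cast_ne_zero]
      exact pow_ne_zero _ hp.out.ne_zero⟩
    rw [aeval_def, eval₂_eq_eval_map, map_cyclotomic]
    exact (isRoot_cyclotomic_iff (n := p ^ (n + 1))).2 hz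
  set P1 : ℚ_[p][X] := (P.comp (X + 1)) %ₘ Q with hP1
  have h1 : aeval (z - 1) P1 = y := by
    have h2 := congrArg (aeval (z - 1)) (modByMonic_add_div (P.comp (X + 1)) Q)
    rw [map_add, map_mul, hQ0, zero_mul, add_zero] at h2
    rw [hP1, h2, aeval_comp]
    simp only [map_add, aeval_X, map_one, sub_add_cancel]
    exact hP
  have hdeg : P1.natDegree < Nat.totient (p ^ (n + 1)) := by
    rw [← hQdeg]
    refine natDegree_modByMonic_lt _ hQm ?_
    intro h
    rw [h, natDegree_one] at hQdeg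
    exact (Nat.totient_pos.2 (pow_pos hp.out.pos _)).ne hQdeg
  refine ⟨P1.coeff, ?_⟩
  rw [← h1, aeval_eq_sum_range' hdeg]
  exact sum_congr rfl fun j _ => by rw [Algebra.smul_def]

/-- bound for the coefficients -/
theorem norm_coeff_le {z : PadicAlgCl p} {n : ℕ} (hz : IsPrimitiveRoot z (p ^ (n + 1)))
    (b : ℕ → ℚ_[p]) {i : ℕ} (hi : i < Nat.totient (p ^ (n + 1))) :
    ‖b i‖ ≤ p * ‖∑ j ∈ range (Nat.totient (p ^ (n + 1))),
        algebraMap ℚ_[p] (PadicAlgCl p) (b j) * (z - 1) ^ j‖ := by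
  have h1 := norm_term_le hz b hi
  rw [norm_mul, norm_pow] at h1
  have hb' : ‖algebraMap ℚ_[p] (PadicAlgCl p) (b i)‖ = ‖b i‖ := PadicAlgCl.norm_extends p (b i)
  rw [hb'] at h1
  have h2 := norm_sub_one_pow_totient hz
  have hp0 : (0 : ℝ) < p := by exact_mod_cast hp.out.pos
  have hle1 : ‖z - 1‖ ≤ 1 := by
    by_contra hcon
    push Not at hcon
    have h3 := one_lt_pow₀ hcon (Nat.totient_pos.2 (pow_pos hp.out.pos (n + 1))).ne'
    rw [h2] at h3
    exact absurd h3 (not_lt.2 (inv_le_one_of_one_le₀ (by exact_mod_cast hp.out.one_le)))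
  have h3 : (p : ℝ)⁻¹ ≤ ‖z - 1‖ ^ i := by
    rw [← h2]
    exact pow_le_pow_of_le_one (norm_nonneg _) hle1 hi.le
  calc ‖b i‖ = p * (‖b i‖ * (p : ℝ)⁻¹) := by field_simp
    _ ≤ p * (‖b i‖ * ‖z - 1‖ ^ i) := by
      refine mul_le_mul_of_nonneg_left ?_ hp0.le
      exact mul_le_mul_of_nonneg_left h3 (norm_nonneg _)
    _ ≤ _ := mul_le_mul_of_nonneg_left h1 hp0.le

end Pool.Agent.Q21.FM
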