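import Pool.Agent.Q21.FM.Tate1

/-!
The trace in the cyclotomic tower and its bound.
-/

set_option autoImplicit false
set_option linter.unusedSectionVars false

namespace Pool.Agent.Q21.FM

open Pool.Agent.W292.FM Polynomial Finset

variable {p : ℕ} [hp : Fact p.Prime]

/-- `K_m = ℚ_p(ζ_{p^m})` -/
noncomputable def Km (p : ℕ) [Fact p.Prime] (m : ℕ) : IntermediateField ℚ_[p] (PadicAlgCl p) :=
  IntermediateField.adjoin ℚ_[p] {zt p m}

/-- `γ` fixes the `p^m`-th roots of unity -/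
def Fixes (m : ℕ) (γ : GQp p) : Prop := ∀ w : PadicAlgCl p, w ^ p ^ m = 1 → γ w = w

theorem zt_pow (m : ℕ) : zt p m ^ p ^ m = 1 := (zt_spec m).pow_eq_one

theorem exists_pow_zt {m : ℕ} {w : PadicAlgCl p} (hw : w ^ p ^ m = 1) : ∃ i : ℕ, w = zt p m ^ i := by
  have : NeZero (p ^ m : ℕ) := ⟨pow_ne_zero _ hp.out.ne_zero⟩
  obtain ⟨i, _, hi⟩ := (zt_spec (p := p) m).eq_pow_of_pow_eq_one hw
  exact ⟨i, hi.symm⟩

theorem gal_smul (γ : GQp p) (c : ℚ_[p]) (x : PadicAlgCl p) : γ (c • x) = c • γ x := by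
  rw [Algebra.smul_def, Algebra.smul_def, map_mul, AlgEquiv.commutes]

theorem exists_tau (n k : ℕ) : ∃ τ : ℕ → GQp p, ∀ b,
    τ b (zt p (n + k + 1)) = zt p (n + k + 1) ^ (1 + p ^ (n + 1) * b) := by
  have : ∀ b, ∃ σ : GQp p, σ (zt p (n + k + 1)) = zt p (n + k + 1) ^ (1 + p ^ (n + 1) * b) := by
    intro b
    refine exists_gal (zt_spec (n + k + 1)) ?_
    rw [pow_succ', mul_assoc, Nat.coprime_add_mul_left_left]
    exact Nat.coprime_one_left p
  choose τ hτ using this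
  exact ⟨τ, hτ⟩

/-- the trace `∑_b τ_b` -/
noncomputable def SS (τ : ℕ → GQp p) (k : ℕ) : PadicAlgCl p →ₗ[ℚ_[p]] PadicAlgCl p :=
  ∑ b ∈ range (p ^ k), (τ b).toLinearMap

theorem SS_apply (τ : ℕ → GQp p) (k : ℕ) (y : PadicAlgCl p) :
    SS τ k y = ∑ b ∈ range (p ^ k), τ b y := by
  simp [SS, LinearMap.sum_apply]

theorem norm_pk (k : ℕ) : ‖((p ^ k : ℕ) : PadicAlgCl p)‖ = ((p : ℝ) ^ k)⁻¹ := by
  rw [Nat.cast_pow, norm_pow, norm_natCast_alg, Padic.norm_p, inv_pow]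

section

variable {n k : ℕ} {τ : ℕ → GQp p}
  (hτ : ∀ b, τ b (zt p (n + k + 1)) = zt p (n + k + 1) ^ (1 + p ^ (n + 1) * b))

include hτ

theorem tau_root {w : PadicAlgCl p} (hw : w ^ p ^ (n + k + 1) = 1) (b : ℕ) :
    τ b w = w ^ (1 + p ^ (n + 1) * b) := by
  obtain ⟨i, rfl⟩ := exists_pow_zt hw
  rw [map_pow, hτ, ← pow_mul, ← pow_mul, mul_comm]

theorem tau_fixes (b : ℕ) : Fixes (n + 1) (τ b) := by
  intro w hw
  rw [tau_root hτ (by
    rw [show n + k + 1 = (n + 1) + k by ring, pow_add, pow_mul, hw, one_pow]) b, pow_add, pow_one,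
    pow_mul, hw, one_pow, mul_one]

/-- the trace of a root of unity -/
theorem SS_root {w : PadicAlgCl p} (hw : w ^ p ^ (n + k + 1) = 1) :
    (w ^ p ^ (n + 1) = 1 ∧ SS τ k w = (p ^ k : ℕ) * w) ∨ SS τ k w = 0 := by
  have h1 : SS τ k w = w * ∑ b ∈ range (p ^ k), (w ^ p ^ (n + 1)) ^ b := by
    rw [SS_apply, mul_sum]
    refine sum_congr rfl fun b _ => ?_
    rw [tau_root hτ hw b, pow_add, pow_one, pow_mul]
  by_cases h : w ^ p ^ (n + 1) = 1
  · left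
    refine ⟨h, ?_⟩
    rw [h1, h]
    simp [mul_comm]
  · right
    have h2 : (w ^ p ^ (n + 1)) ^ p ^ k = 1 := by
      rw [← pow_mul, ← pow_add, show n + 1 + k = n + k + 1 by ring, hw]
    have h3 := geom_sum_mul (w ^ p ^ (n + 1)) (p ^ k)
    rw [h2, sub_self] at h3
    rw [h1, (mul_eq_zero.1 h3).resolve_right (sub_ne_zero.2 h), mul_zero]

theorem norm_SS_root {w : PadicAlgCl p} (hw : w ^ p ^ (n + k + 1) = 1) :
    ‖SS τ k w‖ ≤ ((p : ℝ) ^ k)⁻¹ := by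
  rcases SS_root hτ hw with ⟨_, h⟩ | h
  · rw [h, norm_mul, norm_pk, norm_rootOfUnity (pow_ne_zero _ hp.out.ne_zero) hw, mul_one]
  · rw [h, norm_zero]
    have : (0 : ℝ) < p := by exact_mod_cast hp.out.pos
    positivity

theorem fix_SS_root {w : PadicAlgCl p} (hw : w ^ p ^ (n + k + 1) = 1) {γ : GQp p}
    (hγ : Fixes (n + 1) γ) : γ (SS τ k w) = SS τ k w := by
  rcases SS_root hτ hw with ⟨h0, h⟩ | h
  · rw [h, map_mul, map_natCast, hγ w h0]
  · rw [h, map_zero]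

omit hτ in
theorem sub_one_pow_eq (z : PadicAlgCl p) (i : ℕ) : (z - 1) ^ i = ∑ j ∈ range (i + 1),
    (((-1) ^ (i - j) * (i.choose j : ℤ) : ℤ) : ℚ_[p]) • z ^ j := by
  rw [sub_eq_add_neg, add_pow]
  refine sum_congr rfl fun j _ => ?_
  rw [Algebra.smul_def]
  push_cast
  ring

theorem norm_SS_sub_one_pow (i : ℕ) :
    ‖SS τ k ((zt p (n + k + 1) - 1) ^ i)‖ ≤ ((p : ℝ) ^ k)⁻¹ := by
  have hp0 : (0 : ℝ) < p := by exact_mod_cast hp.out.pos
  rw [sub_one_pow_eq, map_sum]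
  refine IsUltrametricDist.norm_sum_le_of_forall_le_of_nonneg (by positivity) fun j _ => ?_
  rw [map_smul, norm_smul]
  have h1 : ‖(((-1) ^ (i - j) * (i.choose j : ℤ) : ℤ) : ℚ_[p])‖ ≤ 1 := Padic.norm_int_le_one _
  have h2 : ‖SS τ k (zt p (n + k + 1) ^ j)‖ ≤ ((p : ℝ) ^ k)⁻¹ := by
    refine norm_SS_root hτ ?_
    rw [← pow_mul, mul_comm, pow_mul, zt_pow, one_pow]
  calc _ ≤ 1 * ((p : ℝ) ^ k)⁻¹ := mul_le_mul h1 h2 (norm_nonneg _) zero_le_one
    _ = _ := one_mul _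

theorem fix_SS_sub_one_pow (i : ℕ) {γ : GQp p} (hγ : Fixes (n + 1) γ) :
    γ (SS τ k ((zt p (n + k + 1) - 1) ^ i)) = SS τ k ((zt p (n + k + 1) - 1) ^ i) := by
  rw [sub_one_pow_eq, map_sum, map_sum]
  refine sum_congr rfl fun j _ => ?_
  rw [map_smul, gal_smul, fix_SS_root hτ ?_ hγ]
  rw [← pow_mul, mul_comm, pow_mul, zt_pow, one_pow]

/-- `‖S y‖ ≤ p ‖p^k‖ ‖y‖` -/
theorem norm_SS_le {y : PadicAlgCl p} (hy : y ∈ Km p (n + k + 1)) :
    ‖SS τ k y‖ ≤ p * ‖y‖ * ((p : ℝ) ^ k)⁻¹ := by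
  have hp0 : (0 : ℝ) < p := by exact_mod_cast hp.out.pos
  obtain ⟨b, hb⟩ := exists_repr (zt_spec (n + k + 1)) hy
  have h1 : SS τ k y = ∑ i ∈ range (Nat.totient (p ^ (n + k + 1))),
      b i • SS τ k ((zt p (n + k + 1) - 1) ^ i) := by
    conv_lhs => rw [hb]
    rw [map_sum]
    exact sum_congr rfl fun i _ => by rw [← Algebra.smul_def, map_smul]
  rw [h1]
  refine IsUltrametricDist.norm_sum_le_of_forall_le_of_nonneg (by positivity) fun i hi => ?_
  rw [norm_smul]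
  have h2 := norm_coeff_le (zt_spec (n + k + 1)) b (mem_range.1 hi)
  rw [← hb] at h2
  exact mul_le_mul h2 (norm_SS_sub_one_pow hτ i) (norm_nonneg _) (by positivity)

theorem fix_SS {y : PadicAlgCl p} (hy : y ∈ Km p (n + k + 1)) {γ : GQp p}
    (hγ : Fixes (n + 1) γ) : γ (SS τ k y) = SS τ k y := by
  obtain ⟨b, hb⟩ := exists_repr (zt_spec (n + k + 1)) hy
  have h1 : SS τ k y = ∑ i ∈ range (Nat.totient (p ^ (n + k + 1))),
      b i • SS τ k ((zt p (n + k + 1) - 1) ^ i) := by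
    conv_lhs => rw [hb]
    rw [map_sum]
    exact sum_congr rfl fun i _ => by rw [← Algebra.smul_def, map_smul]
  rw [h1, map_sum]
  exact sum_congr rfl fun i _ => by rw [gal_smul, fix_SS_sub_one_pow hτ i hγ]

theorem comm_tau {y : PadicAlgCl p} (hy : y ∈ Km p (n + k + 1)) (γ : GQp p) (b : ℕ) :
    γ (τ b y) = τ b (γ y) := by
  obtain ⟨c, hc⟩ := exists_repr (zt_spec (n + k + 1)) hy
  have hz : γ (τ b (zt p (n + k + 1))) = τ b (γ (zt p (n + k + 1))) := by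
    rw [hτ, map_pow]
    rw [tau_root hτ (w := γ (zt p (n + k + 1))) ?_ b]
    rw [← map_pow, zt_pow, map_one]
  rw [hc]
  simp only [map_sum, map_mul, map_pow, map_sub, map_one, AlgEquiv.commutes, hz]

theorem comm_SS {y : PadicAlgCl p} (hy : y ∈ Km p (n + k + 1)) (γ : GQp p) :
    γ (SS τ k y) = SS τ k (γ y) := by
  rw [SS_apply, SS_apply, map_sum]
  exact sum_congr rfl fun b _ => comm_tau hτ hy γ b

omit hτ in
theorem fixes_Km {m : ℕ} {γ : GQp p} (hγ : Fixes m γ) {y : PadicAlgCl p} (hy : y ∈ Km p m) :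
    γ y = y := by
  have h1 : Km p m ≤ IntermediateField.fixedField (Subgroup.zpowers γ) := by
    rw [Km, IntermediateField.adjoin_simple_le_iff, IntermediateField.mem_fixedField_iff]
    intro g hg
    obtain ⟨i, rfl⟩ := Subgroup.mem_zpowers_iff.1 hg
    have hfix : γ (zt p m) = zt p m := hγ _ (zt_pow m)
    have hst : γ ∈ MulAction.stabilizer (GQp p) (zt p m) := hfix
    exact Subgroup.zpow_mem _ hst i
  exact (IntermediateField.mem_fixedField_iff _ _).1 (h1 hy) γ (Subgroup.mem_zpowers γ)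

theorem SS_base {y : PadicAlgCl p} (hy : y ∈ Km p (n + 1)) :
    SS τ k y = (p ^ k : ℕ) * y := by
  rw [SS_apply, sum_congr rfl fun b _ => fixes_Km (tau_fixes hτ b) hy]
  simp

end

theorem Km_mono {m m' : ℕ} (h : m ≤ m') : Km p m ≤ Km p m' := by
  rw [Km, IntermediateField.adjoin_simple_le_iff]
  have h1 : zt p m ^ p ^ m' = 1 := by
    rw [show m' = m + (m' - m) by omega, pow_add, pow_mul, zt_pow, one_pow]
  obtain ⟨i, hi⟩ := exists_pow_zt h1
  rw [hi]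
  exact pow_mem (IntermediateField.mem_adjoin_simple_self _ _) i

/-- `K_∞` -/
noncomputable def Kinf (p : ℕ) [Fact p.Prime] : IntermediateField ℚ_[p] (PadicAlgCl p) :=
  ⨆ m, Km p m

theorem mem_Kinf {y : PadicAlgCl p} : y ∈ Kinf p ↔ ∃ m, y ∈ Km p m := by
  have h : Directed (· ≤ ·) (Km p) := by
    intro a b
    exact ⟨max a b, Km_mono (le_max_left _ _), Km_mono (le_max_right _ _)⟩
  have := IntermediateField.coe_iSup_of_directed h
  rw [← SetLike.mem_coe, Kinf, this, Set.mem_iUnion]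
  rfl

theorem conj_mem_Km {m : ℕ} {y : PadicAlgCl p} (hy : y ∈ Km p m) (γ : GQp p) : γ y ∈ Km p m := by
  have h1 : Km p m ≤ (Km p m).comap (γ : PadicAlgCl p →ₐ[ℚ_[p]] PadicAlgCl p) := by
    rw [Km, IntermediateField.adjoin_simple_le_iff]
    have h2 : γ (zt p m) ^ p ^ m = 1 := by rw [← map_pow, zt_pow, map_one]
    obtain ⟨i, hi⟩ := exists_pow_zt h2
    change γ (zt p m) ∈ Km p m
    rw [hi]
    exact pow_mem (IntermediateField.mem_adjoin_simple_self _ _) i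
  exact h1 hy

end Pool.Agent.Q21.FM
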